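import Mathlib
import Pool.Agent.U462.Sh.Gen

set_option autoImplicit false

/-!
# The cases of the Hardy–Littlewood conjecture are independent of each other

For every finite family of patterns there is a set of natural numbers without small prime factors which
contains no translate of any of the patterns and for which the Hardy–Littlewood law holds, with an error
term of the classical quality, for all systems of linear forms which do not contain one of the patterns.
-/

namespace Pool.Agent.Results.MP_e87c7d_nt.IndependenceOfCases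

open Finset Filter
open scoped Topology

/-- A system of linear forms `a n + b`, given by the pairs `(a, b)`: `a ≥ 1`, `a` and `b` coprime. -/
def IsSystem (L : Finset (ℕ × ℕ)) : Prop := ∀ l ∈ L, 0 < l.1 ∧ l.1.Coprime l.2

/-- the number of the residues `r` modulo `p` for which `p` divides `a r + b` for some `(a, b)` in `L` -/
def rootCount (L : Finset (ℕ × ℕ)) (p : ℕ) : ℕ := #((range p).filter fun r => ∃ l ∈ L, p ∣ l.1 * r + l.2)

/-- the partial product of the singular series of `L` over the primes `p ≤ t` -/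
noncomputable def series (L : Finset (ℕ × ℕ)) (t : ℕ) : ℝ :=
  ∏ p ∈ (range (t + 1)).filter Nat.Prime, (1 - (rootCount L p : ℝ) / p) / (1 - 1 / (p : ℝ)) ^ #L

/-- the number of the `n < x` for which all values of the forms of `L` at `n` belong to `S` -/
noncomputable def count (S : Set ℕ) (L : Finset (ℕ × ℕ)) (x : ℕ) : ℕ :=
  {n : ℕ | n < x ∧ ∀ l ∈ L, l.1 * n + l.2 ∈ S}.ncard

/-- **The Hardy–Littlewood law** for the set `S` and the system `L` with the error term
`O(x exp (-c √(log x)))`: the singular series converges to some `𝔖`, it is positive if `L` has no local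
obstruction, and the number of the `n < x` with all values in `S` is `𝔖` times the sum of
`∏ 1 / log (a n + b)` over `2 ≤ n < x`, up to the error. -/
def Law (c : ℝ) (S : Set ℕ) (L : Finset (ℕ × ℕ)) : Prop :=
  ∃ 𝔖 : ℝ, Tendsto (series L) atTop (𝓝 𝔖) ∧ ((∀ p : ℕ, p.Prime → rootCount L p < p) → 0 < 𝔖) ∧
    ∃ C : ℝ, ∀ x : ℕ, 2 ≤ x →
      |(count S L x : ℝ) - 𝔖 * ∑ n ∈ Ico 2 x, ∏ l ∈ L, 1 / Real.log ((l.1 * n + l.2 : ℕ) : ℝ)| ≤
        C * x * Real.exp (-(c * Real.sqrt (Real.log x)))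

/-- `m` has no prime factor up to `2 ^ 2 ^ h`, where `h` is the integer part of half of the (integer part
of the) twice iterated logarithm of `m` to base `2`; so `2 ^ 2 ^ h` lies between two powers of the form
`exp (c √(log m))`. -/
def Rough (m : ℕ) : Prop := ∀ p : ℕ, p.Prime → p ≤ 2 ^ 2 ^ (Nat.log 2 (Nat.log 2 m) / 2) → ¬ p ∣ m

/-- The family `H` of finite sets is sparse: for every `ε > 0`, if `M` is large and `n ≥ M`, then the
numbers `m ≥ M` which lie together with `n` in a member of `H` have `∑ 1 / √(log m) ≤ ε`. -/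
def Sparse (H : Set (Finset ℕ)) : Prop :=
  ∀ ε : ℝ, 0 < ε → ∃ M : ℕ, ∀ n : ℕ, M ≤ n → ∀ F : Finset ℕ,
    (∀ m ∈ F, M ≤ m ∧ ∃ e ∈ H, n ∈ e ∧ m ∈ e) → ∑ m ∈ F, 1 / Real.sqrt (Real.log m) ≤ ε

/-- **The cases of the Hardy–Littlewood conjecture are independent of each other.** There is `c > 0` such
that:
(1) For every finite family of finite sets `D` with `0 ∈ D` and at least two elements there is a set `S` of
rough numbers `≥ 2` which contains no translate `t + D` of a member of the family, while the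
Hardy–Littlewood law holds for `S` and for every system of linear forms which does not contain forms
`a n + b + d`, `d ∈ D`, for a member `D` of the family.
(2) For every sparse family `H` of nonempty finite sets there is a set `S` of rough numbers `≥ 2` which
contains no member of `H`, while the Hardy–Littlewood law holds for `S` and for every system of linear forms
whose values contain a member of `H` for at most `O(√x)` of the `n < x`. -/
theorem result : ∃ c : ℝ, 0 < c ∧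
    (∀ 𝓓 : Finset (Finset ℕ), (∀ D ∈ 𝓓, 0 ∈ D ∧ 2 ≤ #D) → ∃ S : Set ℕ,
      (∀ m ∈ S, 2 ≤ m ∧ Rough m) ∧ (∀ D ∈ 𝓓, ∀ t : ℕ, ¬ ∀ d ∈ D, t + d ∈ S) ∧
      ∀ L : Finset (ℕ × ℕ), IsSystem L → (∀ D ∈ 𝓓, ¬ ∃ a b : ℕ, ∀ d ∈ D, (a, b + d) ∈ L) → Law c S L) ∧
    (∀ H : Set (Finset ℕ), ∅ ∉ H → Sparse H → ∃ S : Set ℕ,
      (∀ m ∈ S, 2 ≤ m ∧ Rough m) ∧ (∀ e ∈ H, ¬ ∀ m ∈ e, m ∈ S) ∧
      ∀ L : Finset (ℕ × ℕ), IsSystem L →
        (∃ C : ℝ, ∀ x : ℕ, (({n : ℕ | n < x ∧ ∃ e ∈ H, ∀ m ∈ e, ∃ l ∈ L, m = l.1 * n + l.2}.ncard : ℕ) : ℝ) ≤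
          C * Real.sqrt x) → Law c S L) := by
  classical
  obtain ⟨c, hc, hgen⟩ := Pool.Agent.U462.Sh.general
  have hA : ∀ H : Set (Finset ℕ), ∅ ∉ H → Sparse H → ∃ S : Set ℕ,
      (∀ m ∈ S, 2 ≤ m ∧ Rough m) ∧ (∀ e ∈ H, ¬ ∀ m ∈ e, m ∈ S) ∧
      ∀ L : Finset (ℕ × ℕ), IsSystem L →
        (∃ C : ℝ, ∀ x : ℕ, (({n : ℕ | n < x ∧ ∃ e ∈ H, ∀ m ∈ e, ∃ l ∈ L, m = l.1 * n + l.2}.ncard : ℕ) : ℝ) ≤
          C * Real.sqrt x) → Law c S L := by
    intro H h0 hsp
    obtain ⟨S, hS1, hS2, hS3⟩ := hgen (fun e => e ∈ H) h0 hsp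
    refine ⟨S, hS2, hS1, ?_⟩
    intro L hL hrare
    have hrare' : Pool.Agent.U462.Sh.Rare (fun e => e ∈ H) L := by
      obtain ⟨C, hC⟩ := hrare
      refine ⟨C, fun x => ?_⟩
      refine le_of_eq_of_le ?_ (hC x)
      congr 1
      rw [← Set.ncard_coe_finset]
      congr 1
      ext n
      rw [mem_coe, mem_filter, mem_range, Set.mem_setOf_eq]
      unfold Pool.Agent.U462.Sh.Avoids Pool.Agent.U462.Sh.vals
      push Not
      constructor
      · rintro ⟨h1, e, h2, h3⟩
        refine ⟨h1, e, h2, fun m hm => ?_⟩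
        obtain ⟨l, hl, hlm⟩ := mem_image.1 (h3 hm)
        exact ⟨l, hl, hlm.symm⟩
      · rintro ⟨h1, e, h2, h3⟩
        refine ⟨h1, e, h2, fun m hm => ?_⟩
        obtain ⟨l, hl, hlm⟩ := h3 m hm
        exact mem_image.2 ⟨l, hl, hlm.symm⟩
    obtain ⟨𝔖, h1, h2, C, h3⟩ := hS3 L hL hrare'
    refine ⟨𝔖, h1, h2, C, ?_⟩
    intro x hx
    have hcount : (count S L x : ℝ) = (#((range x).filter (fun n => ∀ l ∈ L, l.1 * n + l.2 ∈ S)) : ℝ) := by
      unfold count
      congr 1
      rw [← Set.ncard_coe_finset]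
      congr 1
      ext n
      rw [mem_coe, mem_filter, mem_range, Set.mem_setOf_eq]
    rw [hcount]
    exact h3 x hx
  refine ⟨c, hc, ?_, hA⟩
  intro 𝓓 h𝓓
  -- the family of the translates
  obtain ⟨Δ, hΔ⟩ : ∃ Δ : Finset ℕ, Δ = 𝓓.biUnion id := ⟨_, rfl⟩
  have hmemΔ : ∀ D ∈ 𝓓, ∀ d ∈ D, d ∈ Δ := fun D hD d hd => by
    rw [hΔ, mem_biUnion]; exact ⟨D, hD, hd⟩
  obtain ⟨S, hS1, hS2, hS3⟩ := hA {e | ∃ D ∈ 𝓓, ∃ t : ℕ, e = D.image (fun d => t + d)} (by
      rintro ⟨D, hD, t, ht⟩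
      have h1 := (h𝓓 D hD).1
      have h2 : t + 0 ∈ D.image (fun d => t + d) := mem_image_of_mem _ h1
      rw [← ht] at h2
      exact notMem_empty _ h2) (by
      intro ε hε
      obtain ⟨K, hK⟩ : ∃ K : ℕ, K = #Δ * #Δ + 1 := ⟨_, rfl⟩
      obtain ⟨M, hM⟩ : ∃ M : ℕ, M = ⌈Real.exp ((K / ε) ^ 2)⌉₊ := ⟨_, rfl⟩
      refine ⟨M, ?_⟩
      intro n _ F hF
      have hcardF : #F ≤ K := by
        have hsub : F ⊆ (Δ ×ˢ Δ).image (fun q => n - q.1 + q.2) := by
          intro m hm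
          obtain ⟨_, e, ⟨D, hD, t, rfl⟩, h1, h2⟩ := hF m hm
          obtain ⟨d, hd, hdn⟩ := mem_image.1 h1
          obtain ⟨d', hd', hdm⟩ := mem_image.1 h2
          rw [mem_image]
          refine ⟨(d, d'), mem_product.2 ⟨hmemΔ D hD d hd, hmemΔ D hD d' hd'⟩, ?_⟩
          simp only at hdn hdm ⊢
          omega
        have h3 := (card_le_card hsub).trans card_image_le
        rw [card_product] at h3
        omega
      have hKR : (0 : ℝ) < K := by rw [hK]; positivity
      have hbig : ∀ m ∈ F, 1 / Real.sqrt (Real.log m) ≤ ε / K := by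
        intro m hm
        have h1 : Real.exp ((K / ε) ^ 2) ≤ m := by
          refine (Nat.le_ceil _).trans ?_
          rw [← hM]
          exact_mod_cast (hF m hm).1
        have h2 : (K / ε) ^ 2 ≤ Real.log m := by
          rw [← Real.log_exp ((K / ε) ^ 2)]
          exact Real.log_le_log (Real.exp_pos _) h1
        have h3 : K / ε ≤ Real.sqrt (Real.log m) := Real.le_sqrt_of_sq_le h2
        have h4 : 0 < K / ε := by positivity
        calc 1 / Real.sqrt (Real.log m) ≤ 1 / (K / ε) := one_div_le_one_div_of_le h4 h3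
          _ = ε / K := by field_simp
      calc ∑ m ∈ F, 1 / Real.sqrt (Real.log m) ≤ ∑ m ∈ F, ε / K := sum_le_sum hbig
        _ = #F * (ε / K) := by rw [sum_const, nsmul_eq_mul]
        _ ≤ K * (ε / K) := by
            apply mul_le_mul_of_nonneg_right _ (by positivity)
            exact_mod_cast hcardF
        _ = ε := by field_simp)
  refine ⟨S, hS1, ?_, ?_⟩
  · intro D hD t hsub
    apply hS2 (D.image (fun d => t + d)) ⟨D, hD, t, rfl⟩
    intro m hm
    obtain ⟨d, hd, rfl⟩ := mem_image.1 hm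
    exact hsub d hd
  · intro L hL hnot
    apply hS3 L hL
    refine ⟨(#Δ * (#L * #L) : ℕ), fun x => ?_⟩
    -- the exceptional `n`
    have hsub : {n : ℕ | n < x ∧ ∃ e ∈ {e | ∃ D ∈ 𝓓, ∃ t : ℕ, e = D.image (fun d => t + d)},
        ∀ m ∈ e, ∃ l ∈ L, m = l.1 * n + l.2} ⊆
        (((Δ ×ˢ (L ×ˢ L)).filter (fun q => ¬ (q.2.2.1 = q.2.1.1 ∧ q.2.2.2 = q.2.1.2 + q.1))).biUnion fun q =>
          (range x).filter fun n => q.2.2.1 * n + q.2.2.2 = q.2.1.1 * n + (q.2.1.2 + q.1) : Finset ℕ) := by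
      rintro n ⟨hn, e, ⟨D, hD, t, rfl⟩, hall⟩
      obtain ⟨l0, hl0, ht⟩ := hall (t + 0) (mem_image_of_mem _ (h𝓓 D hD).1)
      have hex : ∃ d ∈ D, (l0.1, l0.2 + d) ∉ L := by
        by_contra hcon
        push Not at hcon
        exact hnot D hD ⟨l0.1, l0.2, hcon⟩
      obtain ⟨d, hd, hdL⟩ := hex
      obtain ⟨l, hl, hlt⟩ := hall (t + d) (mem_image_of_mem _ hd)
      rw [mem_coe, mem_biUnion]
      refine ⟨(d, (l0, l)), mem_filter.2 ⟨mem_product.2 ⟨hmemΔ D hD d hd, mem_product.2 ⟨hl0, hl⟩⟩, ?_⟩, ?_⟩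
      · rintro ⟨h1, h2⟩
        apply hdL
        simp only at h1 h2
        rw [← h1, ← h2]
        exact hl
      · rw [mem_filter, mem_range]
        refine ⟨hn, ?_⟩
        simp only
        omega
    have h1 := Set.ncard_le_ncard hsub (Finset.finite_toSet _)
    rw [Set.ncard_coe_finset] at h1
    have h2 : #(((Δ ×ˢ (L ×ˢ L)).filter (fun q => ¬ (q.2.2.1 = q.2.1.1 ∧ q.2.2.2 = q.2.1.2 + q.1))).biUnion fun q =>
          (range x).filter fun n => q.2.2.1 * n + q.2.2.2 = q.2.1.1 * n + (q.2.1.2 + q.1)) ≤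
        #Δ * (#L * #L) := by
      refine (card_biUnion_le_card_mul _ _ 1 ?_).trans ?_
      · intro q hq
        rw [mem_filter] at hq
        rw [card_le_one]
        intro m hm m' hm'
        rw [mem_filter] at hm hm'
        exact Pool.Agent.U462.Sh.one_sol hq.2 hm.2 hm'.2
      · rw [mul_one]
        refine (card_le_card (filter_subset _ _)).trans ?_
        rw [card_product, card_product]
    rcases Nat.eq_zero_or_pos x with hx | hx
    · subst hx
      have : {n : ℕ | n < 0 ∧ ∃ e ∈ {e | ∃ D ∈ 𝓓, ∃ t : ℕ, e = D.image (fun d => t + d)},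
        ∀ m ∈ e, ∃ l ∈ L, m = l.1 * n + l.2} = ∅ := by
        ext n
        simp
      rw [this]
      simp
    · have hx1 : (1 : ℝ) ≤ Real.sqrt x := by
        apply Real.le_sqrt_of_sq_le
        have : (1 : ℝ) ≤ x := by exact_mod_cast hx
        linarith
      have h3 : (({n : ℕ | n < x ∧ ∃ e ∈ {e | ∃ D ∈ 𝓓, ∃ t : ℕ, e = D.image (fun d => t + d)},
        ∀ m ∈ e, ∃ l ∈ L, m = l.1 * n + l.2}.ncard : ℕ) : ℝ) ≤ ((#Δ * (#L * #L) : ℕ) : ℝ) := by
        exact_mod_cast h1.trans h2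
      refine h3.trans ?_
      have h4 : (0 : ℝ) ≤ ((#Δ * (#L * #L) : ℕ) : ℝ) := Nat.cast_nonneg _
      nlinarith

end Pool.Agent.Results.MP_e87c7d_nt.IndependenceOfCases
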