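import Mathlib
import Pool.Agent.U364.ST.Cls
import Pool.Agent.R498.MP.Tup
import Pool.Agent.U364.ST.Adm

/-!
# Strings of consecutive candidates for prime quadruples of the shape `(p, p + 4, p + 6, p + 10)`, all almost prime quadruples

If `n, n + 4, n + 6, n + 10` are primes and `n > 5`, then `n` is a prime of the class `7` or `13` modulo `30`: these primes are the
candidates for the quadruples of this shape. Call a prime `p` good (parameters `r`, `w`) if `p + 4`, `p + 6` and `p + 10` have at
most `r` prime factors, all of them at least `w = N ^ δ`.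

For every `m` there are `C`, `r` and `δ > 0` such that for every finite set `T` of at least `C` nonnegative integers and every
length `l` the following holds for all large `N`: at least `1 / C` of all the `m`-element subsets `H` of `T` are such that
there is an arithmetic progression of `l` terms `x` in `(N, 2 N]` with difference at most `(log N) ^ B` such that for every
term `x` the primes of the class `c` modulo `30` (`c = 7` or `c = 13`) in `[x, x + 30 max H]` are exactly the numbers `x + 30 h`,
`h ∈ H`, and all these primes are good. So there are `m` CONSECUTIVE candidates of either class which are all good, in every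
interval `(N, 2 N]`, and a positive proportion of all the patterns of candidates occurs in this way. In place of `30` one can
take any squarefree multiple `q` of `30` and any `c` with `c (c + 4) (c + 6) (c + 10)` coprime to `q`.

Proof: the theorem on primes with almost prime companions (starting files, `Pool.Agent.R498.MP.stringsC`), for shifts which are
multiples of `q`, and the passage to a positive proportion of the patterns (starting files, `Pool.Agent.Helper32K9.Str`).
-/

set_option autoImplicit false

namespace Pool.Agent.Results.MP_092512_nt.ConsecutiveCandidates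

open Filter Polynomial

/-- `n` has at most `r` prime factors, counted with multiplicity, all of them at least `w`. -/
def AlmostPrime (r : ℕ) (w : ℝ) (n : ℕ) : Prop :=
  n.primeFactorsList.length ≤ r ∧ ∀ q : ℕ, q.Prime → q ∣ n → w ≤ q

/-- `p + 4`, `p + 6` and `p + 10` are almost primes. -/
def Good (r : ℕ) (w : ℝ) (p : ℕ) : Prop :=
  AlmostPrime r w (p + 4) ∧ AlmostPrime r w (p + 6) ∧ AlmostPrime r w (p + 10)

/-- There is an arithmetic progression of `l` terms `x`, with difference between `1` and `(log N) ^ B`, such that for all its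
terms `x`: `N < x`, `x + q max H ≤ 2 N`, the primes among the numbers `x + q y`, `y ≤ max H` (all the numbers `≡ c` modulo `q`
of the interval `[x, x + q max H]`) are exactly those with `y ∈ H`, and they are all good with the parameters `r`, `N ^ δ`. -/
def Occurs (q c r : ℕ) (δ : ℝ) (l B N : ℕ) (H : Finset ℕ) : Prop :=
  ∃ n d : ℕ, 1 ≤ d ∧ (d : ℝ) ≤ Real.log N ^ B ∧ ∀ j < l, N < n + j * d ∧ n + j * d + q * H.sup id ≤ 2 * N ∧
    (∀ y ≤ H.sup id, (n + j * d + q * y).Prime ↔ y ∈ H) ∧
    ∀ s ∈ H, n + j * d + q * s ≡ c [MOD q] ∧ Good r ((N : ℝ) ^ δ) (n + j * d + q * s)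

/-- the product of the forms -/
noncomputable def F : ℤ[X] := (X + 4) * ((X + 6) * (X + 10))

theorem F_eval (n : ℤ) : F.eval n = (n + 4) * ((n + 6) * (n + 10)) := by
  unfold F
  simp

/-- **A positive proportion of the patterns of `m` consecutive candidates for prime quadruples `(p, p + 4, p + 6, p + 10)` consists
of candidates which are all almost prime quadruples.** -/
theorem result :
    (∀ q c : ℕ, Squarefree q → 30 ∣ q → Nat.Coprime (c * ((c + 4) * ((c + 6) * (c + 10)))) q → ∀ m : ℕ, 1 ≤ m →
      ∃ (C r : ℕ) (δ : ℝ), 0 < C ∧ 0 < δ ∧ ∀ T : Finset ℕ, C ≤ T.card → ∀ l : ℕ, ∃ B : ℕ, ∀ᶠ N : ℕ in atTop,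
        T.card.choose m ≤ C * {H : Finset ℕ | H ⊆ T ∧ H.card = m ∧ Occurs q c r δ l B N H}.ncard) ∧
    Squarefree 30 ∧ (∀ c : ℕ, c = 7 ∨ c = 13 → Nat.Coprime (c * ((c + 4) * ((c + 6) * (c + 10)))) 30) ∧
    ∀ n : ℕ, 5 < n → n.Prime → (n + 4).Prime → (n + 6).Prime → (n + 10).Prime → n % 30 = 7 ∨ n % 30 = 13 := by
  refine ⟨fun q c hq h30 hc m hm => ?_, ?_, ?_, ?_⟩
  · refine Pool.Agent.U364.ST.cls_prop F ?_ ?_ q c hq ?_ ?_ m hm Good 0 ?_
    · intro h
      have h1 := F_eval 0
      rw [h] at h1
      norm_num at h1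
    · intro p hp
      obtain ⟨n, hn⟩ := Pool.Agent.U364.ST.adm_two (fun n => n * F.eval n) 13 37 (by
        rw [F_eval, F_eval, Int.isCoprime_iff_gcd_eq_one]
        norm_num) p hp
      exact ⟨n, hn⟩
    · intro p hp hpq hd
      rw [F_eval] at hd
      have h1 : p ∣ c * ((c + 4) * ((c + 6) * (c + 10))) := by exact_mod_cast hd
      have h2 := Nat.dvd_gcd h1 hpq
      rw [hc] at h2
      exact hp.one_lt.ne' (Nat.dvd_one.1 h2)
    · intro z hz0 hqz h0
      rw [F_eval] at h0
      have h1 : (30 : ℤ) ∣ z := by
        refine dvd_trans ?_ hqz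
        exact_mod_cast h30
      rcases mul_eq_zero.1 h0 with h2 | h2
      · omega
      · rcases mul_eq_zero.1 h2 with h3 | h3 <;> omega
    · intro r w p hp _ _ hAP
      rw [F_eval] at hAP
      have e : ((p : ℤ) + 4) * (((p : ℤ) + 6) * ((p : ℤ) + 10)) = (((p + 4) * ((p + 6) * (p + 10)) : ℕ) : ℤ) := by
        push_cast
        ring
      rw [e] at hAP
      refine ⟨Pool.Agent.R498.MP.AP_nat _ _ _ (Pool.Agent.R498.MP.AP_dvd r w _ _ hAP ?_),
        Pool.Agent.R498.MP.AP_nat _ _ _ (Pool.Agent.R498.MP.AP_dvd r w _ _ hAP ?_),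
        Pool.Agent.R498.MP.AP_nat _ _ _ (Pool.Agent.R498.MP.AP_dvd r w _ _ hAP ?_)⟩
      · exact Int.natCast_dvd_natCast.2 (Dvd.intro _ rfl)
      · exact Int.natCast_dvd_natCast.2 ((Dvd.intro _ rfl : p + 6 ∣ (p + 6) * (p + 10)).mul_left _)
      · exact Int.natCast_dvd_natCast.2 ((Dvd.intro_left _ rfl : p + 10 ∣ (p + 6) * (p + 10)).mul_left _)
  · have h2 : Squarefree 2 := Nat.prime_two.prime.squarefree
    have h3 : Squarefree 3 := Nat.prime_three.prime.squarefree
    have h5 : Squarefree 5 := (by norm_num : Nat.Prime 5).prime.squarefree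
    have h6 : Squarefree (2 * 3) := (Nat.squarefree_mul (by norm_num)).2 ⟨h2, h3⟩
    have h30 : Squarefree (2 * 3 * 5) := (Nat.squarefree_mul (by norm_num)).2 ⟨h6, h5⟩
    exact h30
  · rintro c (rfl | rfl) <;> norm_num
  · intro n hn h0 h4 h6 h10
    have key : ∀ p : ℕ, p.Prime → ∀ m : ℕ, m.Prime → 5 < m → p ≤ 5 → m % p ≠ 0 := by
      intro p hp m hm hm5 hp5 h
      have h1 := (Nat.prime_dvd_prime_iff_eq hp hm).1 (Nat.dvd_of_mod_eq_zero h)
      omega
    have a2 := key 2 Nat.prime_two n h0 hn (by norm_num)
    have a3 := key 3 Nat.prime_three n h0 hn (by norm_num)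
    have a5 := key 5 (by norm_num) n h0 hn (by norm_num)
    have b3 := key 3 Nat.prime_three (n + 4) h4 (by omega) (by norm_num)
    have b5 := key 5 (by norm_num) (n + 4) h4 (by omega) (by norm_num)
    have c5 := key 5 (by norm_num) (n + 6) h6 (by omega) (by norm_num)
    have e5 : n % 5 = 2 ∨ n % 5 = 3 := by
      clear a2 a3 b3
      have h1 := Nat.add_mod n 4 5
      have h2 := Nat.add_mod n 6 5
      have h3 := Nat.mod_lt n (show 0 < 5 by norm_num)
      generalize n % 5 = t at *
      interval_cases t <;> simp_all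
    have e3 : n % 3 = 1 := by
      clear a2 a5 b5 c5 e5
      omega
    have e2 : n % 2 = 1 := by
      clear a3 a5 b3 b5 c5 e5 e3
      omega
    clear a2 a3 a5 b3 b5 c5
    rcases e5 with e5 | e5
    · left
      omega
    · right
      omega

end Pool.Agent.Results.MP_092512_nt.ConsecutiveCandidates
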