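import Mathlib
import Pool.Agent.U364.ST.Gen

/-!
# Strings of consecutive primes `p` with almost prime `2 p - 1`: most patterns, and prescribed classes of the indices

The question is about primes `p` with `2 p - 1` prime. Call `p` good (parameters `r`, `w`) if `2 p - 1` has at most `r` prime
factors, all of them at least `w = N ^ δ`.

(1) A positive proportion of the patterns. For every `m` there are `C`, `r` and `δ > 0` such that for every finite set `T` of at
least `C` nonnegative integers and every length `l` the following holds for all large `N`: at least `1 / C` of all the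
`m`-element subsets `H` of `T` are patterns of `m` CONSECUTIVE primes, all good and in the class `c` modulo `q`, at all
terms of an arithmetic progression of length `l` in `(N, 2 N]` with difference at most `(log N) ^ B`.

(2) Classes of the indices. Let `u ≥ 1` and `a` be any integers. For every length `s` there are `s + 1` consecutive primes of
the sequence `p_a, p_{a + u}, p_{a + 2 u}, ...` (every `u`-th prime) in `(N, 2 N]`, in an interval of bounded length, all good
and in the class `c` modulo `q`; the bound, `r` and `δ` depend only on `u`, `s`, `q` and `c`.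

Proof: the theorems on strings of consecutive primes with almost prime companions (starting files, `Pool.Agent.R498.MP` and
`Pool.Agent.Helper32K9.Str`).
-/

set_option autoImplicit false

namespace Pool.Agent.Results.MP_0fefc4_nt.StringsAndIndices

open Filter

/-- `2 p - 1` has at most `r` prime factors, counted with multiplicity, all of them at least `w`. -/
def Good (r : ℕ) (w : ℝ) (p : ℕ) : Prop :=
  (2 * p - 1).primeFactorsList.length ≤ r ∧ ∀ q : ℕ, q.Prime → q ∣ 2 * p - 1 → w ≤ q

/-- The primes in the interval `[x, x + max H]` are exactly the numbers `x + s`, `s ∈ H`. -/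
def PrimePattern (H : Finset ℕ) (x : ℕ) : Prop := ∀ y ≤ H.sup id, (x + y).Prime ↔ y ∈ H

/-- `H` is the pattern of consecutive primes `≡ c` modulo `q` with values `2 p - 1` as above (`r`, `w = N ^ δ`) at all
terms of an arithmetic progression of length `l` in `(N, 2 N]` with difference between `1` and `(log N) ^ B`. -/
def OccursAt (q c r : ℕ) (δ : ℝ) (l B N : ℕ) (H : Finset ℕ) : Prop :=
  ∃ n d : ℕ, 1 ≤ d ∧ (d : ℝ) ≤ Real.log N ^ B ∧ ∀ j < l, N < n + j * d ∧ n + j * d + H.sup id ≤ 2 * N ∧
    PrimePattern H (n + j * d) ∧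
    ∀ s ∈ H, n + j * d + s ≡ c [MOD q] ∧ Good r ((N : ℝ) ^ δ) (n + j * d + s)

/-- the prime number `p_i`, `p_0 = 2` -/
noncomputable def pr (i : ℕ) : ℕ := Nat.nth Nat.Prime i

theorem cast_val (p : ℕ) (hp : 1 ≤ p) : 2 * (p : ℤ) - 1 = ((2 * p - 1 : ℕ) : ℤ) := by
  rw [Nat.cast_sub (by omega)]
  push_cast
  ring

/-- **Strings of consecutive primes `p` with almost prime `2 p - 1`.** -/
theorem result (q c : ℕ) (hq : Squarefree q) (hc : IsCoprime ((c : ℤ) * (2 * c - 1)) (q : ℤ)) :
    (∀ m : ℕ, 1 ≤ m → ∃ (C r : ℕ) (δ : ℝ), 0 < C ∧ 0 < δ ∧ ∀ T : Finset ℕ, C ≤ T.card → ∀ l : ℕ,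
      ∃ B : ℕ, ∀ᶠ N : ℕ in atTop,
        T.card.choose m ≤ C * {H : Finset ℕ | H ⊆ T ∧ H.card = m ∧ OccursAt q c r δ l B N H}.ncard) ∧
    (∀ u s : ℕ, 1 ≤ u → ∃ (C r : ℕ) (δ : ℝ), 0 < δ ∧ ∀ a : ℕ, ∀ᶠ N : ℕ in atTop, ∃ k : ℕ,
      N < pr (u * k + a) ∧ pr (u * (k + s) + a) ≤ 2 * N ∧ pr (u * (k + s) + a) ≤ pr (u * k + a) + C ∧
      ∀ i ≤ s, pr (u * (k + i) + a) ≡ c [MOD q] ∧ Good r ((N : ℝ) ^ δ) (pr (u * (k + i) + a))) := by
  have hev : ∀ n : ℤ, (Polynomial.C 2 * Polynomial.X - 1 : Polynomial ℤ).eval n = 2 * n - 1 := fun n => by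
    simp
  have hz : ∀ n : ℤ, n ≠ 0 → (Polynomial.C 2 * Polynomial.X - 1 : Polynomial ℤ).eval n ≠ 0 := fun n _ => by
    rw [hev]
    omega
  have hadm : ∀ p : ℕ, p.Prime → ∃ n : ℤ, ¬ (p : ℤ) ∣ n * (Polynomial.C 2 * Polynomial.X - 1 : Polynomial ℤ).eval n :=
    fun p hp => by
      refine ⟨1, fun h => ?_⟩
      rw [hev] at h
      norm_num at h
      have := hp.one_lt
      have h1 : p = 1 := by
        have h2 := Int.natAbs_dvd_natAbs.2 h
        simpa using h2
      omega
  have hV : ∀ (r : ℕ) (w : ℝ) (p : ℕ), p.Prime →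
      Pool.Agent.R498.MP.AP r w ((Polynomial.C 2 * Polynomial.X - 1 : Polynomial ℤ).eval (p : ℤ)) → Good r w p := by
    intro r w p hp h
    rw [hev, cast_val p hp.one_lt.le] at h
    exact Pool.Agent.R498.MP.AP_nat r w _ h
  constructor
  · intro m hm
    exact Pool.Agent.U364.ST.gen_prop (Polynomial.C 2 * Polynomial.X - 1) hz hadm q c hq (by rw [hev]; exact hc) m hm
      Good 0 (fun r w p hp _ _ h => hV r w p hp h)
  · intro u s hu
    obtain ⟨C, r, δ, hδ, h⟩ := Pool.Agent.R498.MP.index_runsC (Polynomial.C 2 * Polynomial.X - 1) hz hadm q c hq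
      (fun p hp hpq => by
        rw [hev]
        exact Pool.Agent.R498.MP.cop_to _ q hc p hp hpq) u s hu
    refine ⟨C, r, δ, hδ, fun a => ?_⟩
    filter_upwards [h a] with N hN
    obtain ⟨k, h1, h2, h3, h4⟩ := hN
    exact ⟨k, h1, h2, h3, fun i hi => ⟨(h4 i hi).1, hV _ _ _ (Nat.prime_nth_prime _) (h4 i hi).2⟩⟩

end Pool.Agent.Results.MP_0fefc4_nt.StringsAndIndices
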