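import Mathlib
import Pool.Agent.U98.TZ.B8

set_option autoImplicit false

/-!
# The shapes of successive almost prime triples

Call an integer rough at the level `w` if it has no prime factors `p ≤ w`. A triple of the shape `(d', d)`,
`1 ≤ d' < d`, with the largest member `p = n + d`: the rough numbers in `[p - d, p]` are exactly `p - d`, `p - d'`, `p`.
For fixed `H ≥ 6` all triples with `d ≤ H` are considered, in the order of their smallest members `n = p - d`. Their
shapes form a sequence of independent trials with the probabilities of Hardy and Littlewood: the probability of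
`(d', d)` is proportional to the singular series, that is to the product of `p - ν(p)` over the primes `p ≤ H`, where
`ν(p)` is the number of the classes modulo `p` which contain `0`, `d'` or `d`. For all `l` and `ε` there is `K` such
that for all large `w`, in ALL intervals of length `≥ w ^ K`, the shapes of `l + 1` successive triples are
asymptotically independent, and independent of the `l` distances, which have the exponential law.
-/

namespace Pool.Agent.Results.MP_1039f5_nt.ShapesOfTriples

open Finset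

/-- `n` has no prime factors `p ≤ w` -/
def Rough (w n : ℕ) : Prop := ∀ p : ℕ, p.Prime → p ≤ w → ¬ p ∣ n

/-- A triple of the shape `(d', d)` with the smallest member `n`: the rough numbers in `[n, n + d]` are exactly `n`,
`n + (d - d')` and `n + d`. -/
def Triple (w d' d n : ℕ) : Prop := ∀ h ≤ d, (Rough w (n + h) ↔ (h = 0 ∨ h = d - d' ∨ h = d))

/-- a triple with `d ≤ H` -/
def SomeTriple (w H n : ℕ) : Prop := ∃ d' d : ℕ, 1 ≤ d' ∧ d' < d ∧ d ≤ H ∧ Triple w d' d n

/-- the next triple -/
noncomputable def next (w H n : ℕ) : ℕ := sInf {m | n < m ∧ SomeTriple w H m}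

/-- the number of the residue classes modulo `p` which contain `0`, `d'` or `d` -/
def nu (d' d p : ℕ) : ℕ := (({0, d', d} : Finset ℕ).image (fun x => x % p)).card

/-- the weight of the shape `(d', d)` -/
noncomputable def weight (H d' d : ℕ) : ℝ := ∏ p ∈ (Icc 1 H).filter Nat.Prime, ((p : ℝ) - nu d' d p)

/-- the sum of the weights of all shapes with `d ≤ H` -/
noncomputable def total (H : ℕ) : ℝ := ∑ d ∈ Icc 1 H, ∑ d' ∈ Ico 1 d, weight H d' d

/-- the density of all triples with `d ≤ H` -/
noncomputable def density (w H : ℕ) : ℝ :=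
  total H * ∏ p ∈ (Icc 1 w).filter Nat.Prime, (if p ≤ H then 1 / (p : ℝ) else 1 - 3 / (p : ℝ))

/-- The number of the triples with smallest member `n ∈ (Z, Z + Y]` such that this triple and the next `l` triples have
the shapes `(e 0, d 0), ..., (e l, d l)` and the `l` distances between the smallest members are in `(s j, T j]`. -/
noncomputable def tripleCount (w H l : ℕ) (e d s T : ℕ → ℕ) (Z Y : ℕ) : ℕ :=
  Set.ncard {n : ℕ | Z < n ∧ n ≤ Z + Y ∧ (∀ j ≤ l, Triple w (e j) (d j) ((next w H)^[j] n)) ∧
    ∀ j < l, s j < (next w H)^[j + 1] n - (next w H)^[j] n ∧ (next w H)^[j + 1] n - (next w H)^[j] n ≤ T j}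

open Pool.Agent.U98.TZ Pool.Agent.U98.TY Pool.Agent.H373R2.T7

/-- the shape as a set -/
def Sh (d' d : ℕ) : Finset ℕ := {0, d - d', d}

lemma sh_sup (d' d : ℕ) : (Sh d' d).sup id = d := by
  apply le_antisymm
  · apply Finset.sup_le
    intro h hh
    unfold Sh at hh
    rw [mem_insert, mem_insert, mem_singleton] at hh
    rcases hh with rfl | rfl | rfl
    · exact Nat.zero_le _
    · exact Nat.sub_le _ _
    · exact le_rfl
  · exact Finset.le_sup (f := id) (by unfold Sh; simp)

lemma sh_card (d' d : ℕ) (h1 : 1 ≤ d') (h2 : d' < d) : (Sh d' d).card = 3 := by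
  unfold Sh
  rw [card_insert_of_notMem, card_insert_of_notMem, card_singleton]
  · rw [mem_singleton]
    omega
  · rw [mem_insert, mem_singleton]
    omega

lemma sh_inj (d' d e' e : ℕ) (h1 : 1 ≤ d') (h2 : d' < d) (h3 : 1 ≤ e') (h4 : e' < e) (h : Sh d' d = Sh e' e) :
    d' = e' ∧ d = e := by
  have h5 : (Sh d' d).sup id = (Sh e' e).sup id := by rw [h]
  rw [sh_sup, sh_sup] at h5
  subst h5
  have h6 : d - d' ∈ Sh e' d := by
    rw [← h]
    unfold Sh
    simp
  unfold Sh at h6
  rw [mem_insert, mem_insert, mem_singleton] at h6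
  omega

lemma triple_iff (w d' d n : ℕ) : Triple w d' d n ↔ Blk w (Sh d' d) n := by
  unfold Triple Blk
  rw [sh_sup]
  have hR : ∀ m, Rough w m ↔ Rgh w m := fun m => Iff.rfl
  have hm : ∀ h, h ∈ Sh d' d ↔ (h = 0 ∨ h = d - d' ∨ h = d) := by
    intro h
    unfold Sh
    rw [mem_insert, mem_insert, mem_singleton]
  constructor
  · intro h x hx
    rw [← hR, h x hx, hm]
  · intro h x hx
    rw [hR, h x hx, hm]

/-- the number of the classes is the same for the reflected shape -/
lemma nuS_sh (d' d p : ℕ) (h2 : d' < d) (hp : 0 < p) : nuS (Sh d' d) p = nu d' d p := by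
  -- the map `x ↦ d - x` modulo `p`
  have key : ∀ a b : ℕ, a ≤ d → b ≤ d → (a % p = b % p ↔ (d - a) % p = (d - b) % p) := by
    intro a b ha hb
    have h3 : ∀ u v : ℕ, u ≤ d → v ≤ d → u % p = v % p → (d - u) % p = (d - v) % p := by
      intro u v hu hv h
      have h4 : u ≡ v [MOD p] := h
      have h5 : (d - u) + u ≡ (d - v) + v [MOD p] := by
        rw [Nat.sub_add_cancel hu, Nat.sub_add_cancel hv]
      exact Nat.ModEq.add_right_cancel h4 h5
    constructor
    · exact h3 a b ha hb
    · intro h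
      have h6 := h3 (d - a) (d - b) (by omega) (by omega) h
      have e1 : d - (d - a) = a := by omega
      have e2 : d - (d - b) = b := by omega
      rwa [e1, e2] at h6
  unfold nuS nu
  have h7 : Sh d' d = ({0, d', d} : Finset ℕ).image (fun x => d - x) := by
    unfold Sh
    ext x
    rw [mem_image]
    simp only [mem_insert, mem_singleton]
    constructor
    · rintro (rfl | rfl | rfl)
      · exact ⟨d, Or.inr (Or.inr rfl), by omega⟩
      · exact ⟨d', Or.inr (Or.inl rfl), rfl⟩
      · exact ⟨0, Or.inl rfl, by omega⟩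
    · rintro ⟨y, rfl | rfl | rfl, rfl⟩
      · right; right; omega
      · right; left; rfl
      · left; omega
  rw [h7, image_image]
  -- compare the two images
  have hle : ∀ y ∈ ({0, d', d} : Finset ℕ), y ≤ d := by
    intro y hy
    simp only [mem_insert, mem_singleton] at hy
    omega
  obtain ⟨A, hA⟩ : ∃ A : Finset ℕ, A = {0, d', d} := ⟨_, rfl⟩
  rw [← hA] at hle ⊢
  have hcomp : ∀ B : Finset ℕ, (∀ y ∈ B, y ≤ d) →
      (B.image ((fun h => h % p) ∘ fun x => d - x)).card = (B.image (fun x => x % p)).card := by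
    intro B
    induction B using Finset.induction_on with
    | empty => intro _; simp
    | insert a B ha ih =>
      intro hB
      have hBd : ∀ y ∈ B, y ≤ d := fun y hy => hB y (mem_insert_of_mem hy)
      have had : a ≤ d := hB a (mem_insert_self _ _)
      have ih' := ih hBd
      rw [image_insert, image_insert]
      by_cases hm : a % p ∈ B.image (fun x => x % p)
      · have hm' : ((fun h => h % p) ∘ fun x => d - x) a ∈ B.image ((fun h => h % p) ∘ fun x => d - x) := by
          rw [mem_image] at hm ⊢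
          obtain ⟨b, hb, hab⟩ := hm
          exact ⟨b, hb, (key b a (hBd b hb) had).1 hab⟩
        rw [insert_eq_of_mem hm, insert_eq_of_mem hm']
        exact ih'
      · have hm' : ((fun h => h % p) ∘ fun x => d - x) a ∉ B.image ((fun h => h % p) ∘ fun x => d - x) := by
          intro hcon
          apply hm
          rw [mem_image] at hcon ⊢
          obtain ⟨b, hb, hab⟩ := hcon
          exact ⟨b, hb, (key b a (hBd b hb) had).2 hab⟩
        rw [card_insert_of_notMem hm, card_insert_of_notMem hm', ih']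
  exact hcomp A hle

/-- the family of the shapes -/
def fam (H : ℕ) : Finset (Finset ℕ) := ((Icc 1 H).sigma (fun d => Ico 1 d)).image (fun x => Sh x.2 x.1)

lemma mem_fam (H : ℕ) (S : Finset ℕ) : S ∈ fam H ↔ ∃ d' d, 1 ≤ d' ∧ d' < d ∧ d ≤ H ∧ S = Sh d' d := by
  unfold fam
  rw [mem_image]
  constructor
  · rintro ⟨⟨d, d'⟩, hd, rfl⟩
    rw [mem_sigma, mem_Icc, mem_Ico] at hd
    exact ⟨d', d, hd.2.1, hd.2.2, hd.1.2, rfl⟩
  · rintro ⟨d', d, h1, h2, h3, rfl⟩
    have h4 : 1 ≤ d := by omega
    exact ⟨⟨d, d'⟩, mem_sigma.2 ⟨mem_Icc.2 ⟨h4, h3⟩, mem_Ico.2 ⟨h1, h2⟩⟩, rfl⟩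

lemma dS_sh (w H d' d : ℕ) (h1 : 1 ≤ d') (h2 : d' < d) (h3 : d ≤ H) (hw : H ≤ w) : dS w (Sh d' d) = weight H d' d *
    ∏ p ∈ (Icc 1 w).filter Nat.Prime, (if p ≤ H then 1 / (p : ℝ) else 1 - 3 / (p : ℝ)) := by
  unfold dS weight
  have h4 : ∏ p ∈ (Icc 1 H).filter Nat.Prime, ((p : ℝ) - nu d' d p) =
      ∏ p ∈ (Icc 1 w).filter Nat.Prime, (if p ≤ H then ((p : ℝ) - nu d' d p) else 1) := by
    rw [← Finset.prod_filter]
    apply prod_congr _ (fun _ _ => rfl)
    ext p
    rw [mem_filter, mem_filter, mem_filter, mem_Icc, mem_Icc]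
    constructor
    · rintro ⟨⟨a1, a2⟩, a3⟩
      exact ⟨⟨⟨a1, a2.trans hw⟩, a3⟩, a2⟩
    · rintro ⟨⟨⟨a1, _⟩, a3⟩, a2⟩
      exact ⟨⟨a1, a2⟩, a3⟩
  rw [h4, ← Finset.prod_mul_distrib]
  apply prod_congr rfl
  intro p hp
  rw [mem_filter] at hp
  have hp0 : (0 : ℝ) < p := by exact_mod_cast hp.2.pos
  split_ifs with h5
  · rw [nuS_sh d' d p h2 hp.2.pos]
    field_simp
  · have h6 : nuS (Sh d' d) p = 3 := by
      have h7 : ∀ h ∈ Sh d' d, h ≤ d := by
        intro h hh
        have h8 := Finset.le_sup (f := id) hh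
        rw [sh_sup] at h8
        exact h8
      have h9 : d < p := by omega
      rw [nuS_large (Sh d' d) d p h7 h9, sh_card d' d h1 h2]
    rw [h6, one_mul]
    norm_num

lemma nu_le (d' d p : ℕ) (hp : 0 < p) : nu d' d p ≤ p := by
  unfold nu
  have : ({0, d', d} : Finset ℕ).image (fun x => x % p) ⊆ range p := by
    intro x hx
    rw [mem_image] at hx
    obtain ⟨y, _, rfl⟩ := hx
    exact mem_range.2 (Nat.mod_lt _ hp)
  have := card_le_card this
  rwa [card_range] at this

lemma nu_four_six (p : ℕ) (hp : p.Prime) : nu 4 6 p < p := by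
  rcases Nat.lt_or_ge p 5 with h | h
  · have := hp.two_le
    interval_cases p
    · decide
    · decide
    · norm_num at hp
  · unfold nu
    have h1 : (({0, 4, 6} : Finset ℕ).image (fun x => x % p)).card ≤ ({0, 4, 6} : Finset ℕ).card := card_image_le
    have h2 : ({0, 4, 6} : Finset ℕ).card = 3 := by decide
    omega

/-- **The law of the shapes of successive triples.** -/
theorem result (H : ℕ) (hH : 6 ≤ H) :
    -- some elementary facts
    (∀ w d' d n s x : ℕ, d' < d → Triple w d' d n → 0 < n → n + d ≤ w ^ s → (x = n ∨ x = n + (d - d') ∨ x = n + d) →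
      x.primeFactorsList.length ≤ s) ∧
    (∀ w n d' d e' e : ℕ, 1 ≤ d' → d' < d → 1 ≤ e' → e' < e → Triple w d' d n → Triple w e' e n → d' = e' ∧ d = e) ∧
    0 < total H ∧
    -- the law
    (∀ l : ℕ, ∀ ε : ℝ, 0 < ε → ∃ K w₀ : ℕ, ∀ w : ℕ, w₀ ≤ w → ∀ Z Y : ℕ, w ^ K ≤ Y →
      ∀ e d s T : ℕ → ℕ, (∀ j ≤ l, 1 ≤ e j ∧ e j < d j ∧ d j ≤ H) → (∀ j < l, s j ≤ T j) →
        |(tripleCount w H l e d s T Z Y : ℝ) - density w H * Y * (∏ j ∈ range (l + 1), weight H (e j) (d j) / total H) *
            ∏ j ∈ range l, (Real.exp (-(density w H * s j)) - Real.exp (-(density w H * T j)))| ≤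
          ε * (density w H * Y)) := by
  classical
  have hw0 : ∀ d' d, 0 ≤ weight H d' d := by
    intro d' d
    unfold weight
    apply prod_nonneg
    intro p hp
    rw [mem_filter] at hp
    have := nu_le d' d p hp.2.pos
    have h1 : (nu d' d p : ℝ) ≤ p := by exact_mod_cast this
    linarith
  have hwp : 0 < weight H 4 6 := by
    unfold weight
    apply prod_pos
    intro p hp
    rw [mem_filter] at hp
    have := nu_four_six p hp.2
    have h1 : (nu 4 6 p : ℝ) < p := by exact_mod_cast this
    linarith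
  have htot : 0 < total H := by
    unfold total
    apply Finset.sum_pos' (fun d _ => Finset.sum_nonneg (fun d' _ => hw0 d' d))
    refine ⟨6, mem_Icc.2 ⟨by norm_num, hH⟩, ?_⟩
    apply Finset.sum_pos' (fun d' _ => hw0 d' 6)
    exact ⟨4, mem_Ico.2 ⟨by norm_num, by norm_num⟩, hwp⟩
  refine ⟨?_, ?_, htot, ?_⟩
  · intro w d' d n s x hdd htr hn hns hx
    rcases hx with rfl | rfl | rfl
    · exact few w s _ hn (by omega) ((htr 0 (Nat.zero_le _)).2 (Or.inl rfl))
    · exact few w s _ (by omega) (by omega) ((htr (d - d') (Nat.sub_le _ _)).2 (Or.inr (Or.inl rfl)))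
    · exact few w s _ (by omega) (by omega) ((htr d le_rfl).2 (Or.inr (Or.inr rfl)))
  · intro w n d' d e' e h1 h2 h3 h4 h5 h6
    have hS : ∀ S ∈ ({Sh d' d, Sh e' e} : Finset (Finset ℕ)), S.card = 3 ∧ 0 ∈ S ∧ ∀ h ∈ S, h ≤ d + e := by
      intro S hS
      rw [mem_insert, mem_singleton] at hS
      rcases hS with rfl | rfl
      · refine ⟨sh_card d' d h1 h2, by unfold Sh; simp, ?_⟩
        intro h hh
        have := Finset.le_sup (f := id) hh
        rw [sh_sup] at this
        simp only [id] at this
        omega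
      · refine ⟨sh_card e' e h3 h4, by unfold Sh; simp, ?_⟩
        intro h hh
        have := Finset.le_sup (f := id) hh
        rw [sh_sup] at this
        simp only [id] at this
        omega
    exact sh_inj d' d e' e h1 h2 h3 h4 (blk_uniq hS w n (Sh d' d) (Sh e' e) (by simp) (by simp)
      ((triple_iff w d' d n).1 h5) ((triple_iff w e' e n).1 h6))
  · intro l ε hε
    obtain ⟨K, w₀, h⟩ := law_family 3 l (fam H) (by
      intro S hS
      obtain ⟨d', d, h1, h2, _, rfl⟩ := (mem_fam H S).1 hS
      exact ⟨sh_card d' d h1 h2, by unfold Sh; simp⟩)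
      ⟨Sh 4 6, (mem_fam H _).2 ⟨4, 6, by norm_num, by norm_num, hH, rfl⟩, by
        intro p hp
        rw [nuS_sh 4 6 p (by norm_num) hp.pos]
        exact nu_four_six p hp⟩ ε hε
    refine ⟨K, max w₀ H, ?_⟩
    intro w hw Z Y hY e d s T hδ hsT
    have b1 : w₀ ≤ w := (le_max_left _ _).trans hw
    have b2 : H ≤ w := (le_max_right _ _).trans hw
    obtain ⟨c, hc⟩ : ∃ c : ℝ, c = ∏ p ∈ (Icc 1 w).filter Nat.Prime,
      (if p ≤ H then 1 / (p : ℝ) else 1 - 3 / (p : ℝ)) := ⟨_, rfl⟩
    have hc0 : 0 < c := by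
      rw [hc]
      apply prod_pos
      intro p hp
      rw [mem_filter] at hp
      have hp1 : (0 : ℝ) < p := by exact_mod_cast hp.2.pos
      split_ifs with h1
      · positivity
      · rw [sub_pos, div_lt_one hp1]
        exact_mod_cast (by omega : 3 < p)
    have hdS : ∀ d' d, 1 ≤ d' → d' < d → d ≤ H → dS w (Sh d' d) = weight H d' d * c := by
      intro d' d h1 h2 h3
      rw [hc]
      exact dS_sh w H d' d h1 h2 h3 b2
    have hD : density w H = ∑ S ∈ fam H, dS w S := by
      unfold fam
      rw [Finset.sum_image (fun x hx y hy he => by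
        rw [Finset.mem_coe, mem_sigma, mem_Icc, mem_Ico] at hx hy
        have := sh_inj x.2 x.1 y.2 y.1 hx.2.1 hx.2.2 hy.2.1 hy.2.2 he
        exact Sigma.ext this.2 (heq_of_eq this.1)), Finset.sum_sigma]
      unfold density total
      rw [← hc, Finset.sum_mul]
      apply Finset.sum_congr rfl
      intro d hd
      rw [mem_Icc] at hd
      rw [Finset.sum_mul]
      apply Finset.sum_congr rfl
      intro d' hd'
      rw [mem_Ico] at hd'
      exact (hdS d' d hd'.1 hd'.2 hd.2).symm
    have hmain := h w b1 Z Y hY (fun j => Sh (e j) (d j)) s T (fun j hj => (mem_fam H _).2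
      ⟨e j, d j, (hδ j hj).1, (hδ j hj).2.1, (hδ j hj).2.2, rfl⟩) hsT (density w H) hD
    have hprod : ∏ j ∈ range (l + 1), dS w (Sh (e j) (d j)) / density w H =
        ∏ j ∈ range (l + 1), weight H (e j) (d j) / total H := by
      apply prod_congr rfl
      intro j hj
      rw [mem_range] at hj
      rw [hdS (e j) (d j) (hδ j (by omega)).1 (hδ j (by omega)).2.1 (hδ j (by omega)).2.2]
      unfold density
      rw [← hc]
      field_simp
    rw [hprod] at hmain
    have hnx : nxB w (fam H) = next w H := by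
      funext n
      unfold nxB next
      congr 1
      ext m
      simp only [Set.mem_ofPred_eq]
      apply and_congr_right
      intro _
      unfold SomeTriple
      constructor
      · rintro ⟨S, hS, hB⟩
        obtain ⟨d', d, h1, h2, h3, rfl⟩ := (mem_fam H S).1 hS
        exact ⟨d', d, h1, h2, h3, (triple_iff w d' d m).2 hB⟩
      · rintro ⟨d', d, h1, h2, h3, hB⟩
        exact ⟨_, (mem_fam H _).2 ⟨d', d, h1, h2, h3, rfl⟩, (triple_iff w d' d m).1 hB⟩
    have hcount : cB w (fam H) l (fun j => Sh (e j) (d j)) s T Z Y = tripleCount w H l e d s T Z Y := by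
      unfold cB tripleCount
      rw [hnx]
      congr 1
      ext n
      simp only [Set.mem_ofPred_eq]
      constructor
      · rintro ⟨a1, a2, a3, a4⟩
        exact ⟨a1, a2, fun j hj => (triple_iff w _ _ _).2 (a3 j hj), a4⟩
      · rintro ⟨a1, a2, a3, a4⟩
        exact ⟨a1, a2, fun j hj => (triple_iff w _ _ _).1 (a3 j hj), a4⟩
    rw [hcount] at hmain
    exact hmain

end Pool.Agent.Results.MP_1039f5_nt.ShapesOfTriples
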