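import Pool.Agent.U455.ORB

/-!
# Orbits `x ↦ D x + e` at every scale: every multiple of 6 from three steps between consecutive primes

For all `R` and `U` there is a constant `C` such that for ALL maps `f(x) = D x + e` (`D ≥ 2`, `e ≠ 0` prime to `D`), all
`m > 0` such that every prime factor of `D - 1` divides `e m`, EVERY multiple `t ≥ 1` of `6` and every `η > 0`, at ALL
large `x` there are integers `U t < k₁, k₂, k₃ ≤ C t` with `t = k₁ + k₂ - k₃` such that for each `i` at least `x ^ (1 - η)`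
primes `p ≤ x` make a step of length `m kᵢ`: the first prime among the iterates `f(p), f²(p), ...` is the one of index
`m kᵢ`, the next `R` iterates are not prime, and `p` is not one of the first `R` iterates of a prime.

For the Cunningham sequences of the second kind, `f(x) = 2 x - 1`, one can take `m = 1`. The constant `C` depends
neither on the map `f` nor on `m`, `t`, `η`.

Proof: the number of the times in a class in the coloured Maynard-Tao theorem for orbits (`Pool.Agent.Y862.Ev`, starting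
files) does not depend on the orbit (`Pool.Agent.U455.ORB.consecEv`). The ternary theorem for sets which meet the
differences of any four classes (`Pool.Agent.U455.TJ.all`) is made uniform over all these sets by limits along
ultrafilters (`Pool.Agent.U455.EVS`, `Pool.Agent.U455.UF.diff`) and uniform in `t` by passing to the elements
divisible by `t / 6` (`Pool.Agent.U455.UF.linear`).
-/

set_option autoImplicit false

namespace Pool.Agent.Results.MP_39b545_nt.ThreeTimesEveryScale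

open Filter

/-- the map `x ↦ D x + e` -/
def f (D : ℕ) (e : ℤ) (x : ℤ) : ℤ := D * x + e

/-- the primes `p` which make a step of length `k`: the `k`-th iterate of `p` is prime, the iterates in between and the
`R` iterates after it are not prime, and `p` is not one of the first `R` iterates of a prime -/
def Steps (D : ℕ) (e : ℤ) (R k : ℕ) : Set ℕ := {p | p.Prime ∧ ((f D e)^[k] (p : ℤ)).toNat.Prime ∧
  (∀ l, 0 < l → l < k → ¬ ((f D e)^[l] (p : ℤ)).toNat.Prime) ∧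
  ∀ l, 0 < l → l ≤ R → ¬ ((f D e)^[k + l] (p : ℤ)).toNat.Prime ∧ ∀ q : ℕ, q.Prime → (f D e)^[l] (q : ℤ) ≠ p}

theorem pr_iff (z : ℤ) : Pool.Agent.W218.OG.Pr z ↔ z.toNat.Prime := by
  constructor
  · rintro ⟨h0, h1⟩
    rw [Nat.prime_iff_prime_int, Int.toNat_of_nonneg h0.le]
    exact h1
  · intro h
    have h0 : 0 < z := by
      by_contra h3
      rw [Int.toNat_of_nonpos (not_lt.1 h3)] at h
      exact Nat.not_prime_zero h
    refine ⟨h0, ?_⟩
    have h3 := Nat.prime_iff_prime_int.1 h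
    rwa [Int.toNat_of_nonneg h0.le] at h3

theorem result (R U : ℕ) : ∃ C : ℕ, ∀ (D : ℕ) (e : ℤ) (m : ℕ), 2 ≤ D → e ≠ 0 → IsCoprime e (D : ℤ) → 0 < m →
    (∀ p : ℕ, p.Prime → p ∣ D - 1 → (p : ℤ) ∣ e * m) → ∀ t : ℕ, 6 ∣ t → 1 ≤ t → ∀ η : ℝ, 0 < η →
    ∀ᶠ x : ℝ in atTop, ∃ k₁ k₂ k₃ : ℕ,
      (U * t < k₁ ∧ k₁ ≤ C * t) ∧ (U * t < k₂ ∧ k₂ ≤ C * t) ∧ (U * t < k₃ ∧ k₃ ≤ C * t) ∧ t + k₃ = k₁ + k₂ ∧
      x ^ (1 - η) ≤ ({p : ℕ | (p : ℝ) ≤ x ∧ p ∈ Steps D e R (m * k₁)}.ncard : ℝ) ∧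
      x ^ (1 - η) ≤ ({p : ℕ | (p : ℝ) ≤ x ∧ p ∈ Steps D e R (m * k₂)}.ncard : ℝ) ∧
      x ^ (1 - η) ≤ ({p : ℕ | (p : ℝ) ≤ x ∧ p ∈ Steps D e R (m * k₃)}.ncard : ℝ) := by
  classical
  obtain ⟨K, hK, hc⟩ := Pool.Agent.U455.ORB.consecEv
  obtain ⟨C, hC⟩ := Pool.Agent.U455.ORB.linear_spaced K R U
  refine ⟨C, fun D e m hD he hcop hm0 hm t h6 ht η hη => ?_⟩
  have hsub : ∀ k : ℕ, Pool.Agent.Y862.PS D e m R k ⊆ Steps D e R (m * k) := by
    rintro k p ⟨h1, h2, h3, h4⟩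
    refine ⟨h1, (pr_iff _).1 h2, fun l hl hl' h => h3 l hl hl' ((pr_iff _).2 h), fun l hl hl' => ?_⟩
    obtain ⟨h5, h6⟩ := h4 l hl hl'
    refine ⟨fun h => h5 ((pr_iff _).2 h), fun q hq h => h6 q ((pr_iff _).2 (by simpa using hq)) h⟩
  have hcard : ∀ (x : ℝ) (k : ℕ), ({p : ℕ | (p : ℝ) ≤ x ∧ p ∈ Pool.Agent.Y862.PS D e m R k}.ncard : ℝ) ≤
      ({p : ℕ | (p : ℝ) ≤ x ∧ p ∈ Steps D e R (m * k)}.ncard : ℝ) := by
    intro x k
    rw [Nat.cast_le]
    refine Set.ncard_le_ncard ?_ ?_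
    · rintro p ⟨h1, h2⟩
      exact ⟨h1, hsub k h2⟩
    · exact (Set.finite_le_nat ⌊x⌋₊).subset fun p hp => Nat.le_floor hp.1
  filter_upwards [hC atTop (fun x : ℝ => {k : ℕ | x ^ (1 - η) ≤
    ({p : ℕ | (p : ℝ) ≤ x ∧ p ∈ Pool.Agent.Y862.PS D e m R k}.ncard : ℝ)})
    (fun H hH => hc D e m hD he hcop hm0 hm R H hH η hη) t h6 ht] with x hx
  obtain ⟨g₁, g₂, g₃, a1, a2, a3, b1, b2, b3, hs⟩ := hx
  exact ⟨g₁, g₂, g₃, b1, b2, b3, hs, le_trans a1 (hcard x g₁), le_trans a2 (hcard x g₂), le_trans a3 (hcard x g₃)⟩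

end Pool.Agent.Results.MP_39b545_nt.ThreeTimesEveryScale
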