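import Mathlib
import Pool.Agent.R498.MP.StrC
import Pool.Agent.R498.MP.Tup
import Pool.Agent.R498.MP.LinC
import Pool.Agent.U364.ST.Adm

/-!
# Consecutive terms of every progression of primes `p_a, p_(a+u), p_(a+2u), ...` with almost prime `4 p + 1`

Number the primes `p_0 = 2, p_1 = 3, ...`. Call a prime `p` good (parameters `r`, `w`) if `4 p + 1` has at most `r` prime factors,
all of them at least `w = N ^ δ`. For all `u ≥ 1` and `s` there are `C`, `r` and `δ > 0` such that for EVERY `a` and all large `N`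
there is a `k` such that the `s + 1` primes `p_(u (k + i) + a)`, `0 ≤ i ≤ s`, all lie in `(N, 2 N]`, within distance `C` of each
other, in the class `c` modulo `q`, and are all good. So along every arithmetic progression of INDICES there are bounded
strings of consecutive terms of the subsequence of the primes which are all good.

Proof: the theorem on index classes of strings of primes with almost prime companions (starting files,
`Pool.Agent.R498.MP.index_runsC`) for this polynomial.
-/

set_option autoImplicit false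

namespace Pool.Agent.Results.MP_3df474_nt.IndexClasses

open Filter

/-- `4 p + 1` has at most `r` prime factors, counted with multiplicity, all of them at least `w`. -/
def Good (r : ℕ) (w : ℝ) (p : ℕ) : Prop :=
  (4 * p + 1).primeFactorsList.length ≤ r ∧ ∀ q : ℕ, q.Prime → q ∣ 4 * p + 1 → w ≤ q

/-- the prime number `p_i`, `p_0 = 2` -/
noncomputable def pr (i : ℕ) : ℕ := Nat.nth Nat.Prime i

/-- **Consecutive terms of the progressions of indices.** -/
theorem result (q c : ℕ) (hq : Squarefree q) (hc : IsCoprime ((c : ℤ) * (4 * (c : ℤ) + 1)) (q : ℤ)) (u s : ℕ) (hu : 1 ≤ u) :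
    ∃ (C r : ℕ) (δ : ℝ), 0 < δ ∧ ∀ a : ℕ, ∀ᶠ N : ℕ in atTop, ∃ k : ℕ,
      N < pr (u * k + a) ∧ pr (u * (k + s) + a) ≤ 2 * N ∧ pr (u * (k + s) + a) ≤ pr (u * k + a) + C ∧
      ∀ i ≤ s, pr (u * (k + i) + a) ≡ c [MOD q] ∧ Good r ((N : ℝ) ^ δ) (pr (u * (k + i) + a)) := by
  have hev : ∀ n : ℤ, (Polynomial.C 4 * Polynomial.X + 1 : Polynomial ℤ).eval n = 4 * n + 1 := fun n => by
    simp
  have hV : ∀ (r : ℕ) (w : ℝ) (p : ℕ), p.Prime →
      Pool.Agent.R498.MP.AP r w ((Polynomial.C 4 * Polynomial.X + 1 : Polynomial ℤ).eval (p : ℤ)) → Good r w p := by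
    intro r w p hp h
    rw [hev] at h
    have e : 4 * (p : ℤ) + 1 = ((4 * p + 1 : ℕ) : ℤ) := by
      push_cast
      ring
    rw [e] at h
    exact Pool.Agent.R498.MP.AP_nat r w _ h
  obtain ⟨C, r, δ, hδ, h⟩ := Pool.Agent.R498.MP.index_runsC (Polynomial.C 4 * Polynomial.X + 1) (fun n hn => by
      rw [hev]
      omega) (fun p hp => by
      obtain ⟨n, hn⟩ := Pool.Agent.U364.ST.adm_two (fun n => n * (Polynomial.C 4 * Polynomial.X + 1 : Polynomial ℤ).eval n) (-1) 1 (by
        simp only [hev]
        rw [Int.isCoprime_iff_gcd_eq_one]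
        norm_num) p hp
      exact ⟨n, hn⟩) q c hq (fun p hp hpq => by
      rw [hev]
      exact Pool.Agent.R498.MP.cop_to _ q hc p hp hpq) u s hu
  refine ⟨C, r, δ, hδ, fun a => ?_⟩
  filter_upwards [h a] with N hN
  obtain ⟨k, h1, h2, h3, h4⟩ := hN
  exact ⟨k, h1, h2, h3, fun i hi => ⟨(h4 i hi).1, hV _ _ _ (Nat.prime_nth_prime _) (h4 i hi).2⟩⟩

end Pool.Agent.Results.MP_3df474_nt.IndexClasses
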