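import Pool.Agent.U455.RTG

/-!
# Gaps of dense sets of sifted prime triples and quadruples

Let `F` be a finite set of shifts which does not cover all classes modulo any prime, for instance `{0, 2, 6}` or
`{0, 2, 6, 8}`, `k = |F|`. `Sifted F y a H` is the set of the `n ∈ (a, a + H]` for which no `n + f`, `f ∈ F`, is divisible by
a prime `p ≤ y`. For a small `η` EVERY interval `(a, a + H]` with large `H` contains at least `c H / (log H)ᵏ` of them with
`y = H ^ η`. For every `η, δ > 0` and EVERY subset `Q` with at least `δ H / (log H)ᵏ` elements, in EVERY interval of large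
length `H`:

* a positive proportion of all numbers `g` up to a multiple of `(log H)ᵏ` are gaps between at least `κ H / (log H)²ᵏ` pairs
  of CONSECUTIVE elements of `Q` (the right order of magnitude);
* EVERY multiple `t ≥ K (log H)ᵏ` of some `M ≥ 1` is a sum of at most `h t / (log H)ᵏ` such gaps `g ≤ K (log H)ᵏ` (the
  smallest possible order of the number of the summands).

Proof: few gaps are long; the upper bound sieve for the `2k` numbers `n + f, n + g + f` (`Pool.Agent.U455.UPG.up_gen`, for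
arbitrary intervals) and the second moment of its singular series give the positive proportion
(`Pool.Agent.U455.RTG.pop`); a local form of Schnirelmann's theorem for sets of arbitrary positive density
(`Pool.Agent.U455.BTG.local_ap`) gives the sums.
-/

set_option autoImplicit false

namespace Pool.Agent.Results.MP_3efbeb_nt.GapsOfSiftedTriples

open Filter Finset

/-- for every prime `p` there is an `r` with no `r + f`, `f ∈ F`, divisible by `p` -/
def Admissible (F : Finset ℕ) : Prop := ∀ p : ℕ, p.Prime → ∃ r : ℕ, ∀ f ∈ F, ¬ p ∣ r + f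

open Classical in
/-- the `n ∈ (a, a + H]` for which no `n + f`, `f ∈ F`, is divisible by a prime `p ≤ y` -/
noncomputable def Sifted (F : Finset ℕ) (y : ℝ) (a H : ℕ) : Finset ℕ :=
  (Ioc a (a + H)).filter (fun n => ∀ f ∈ F, ∀ p : ℕ, p.Prime → (p : ℝ) ≤ y → ¬ p ∣ n + f)

open Classical in
/-- the number of the elements `q` of `Q` for which `q + g` is the next element of `Q` -/
noncomputable def gapCount (Q : Finset ℕ) (g : ℕ) : ℕ :=
  (Q.filter (fun q => q + g ∈ Q ∧ ∀ r ∈ Q, q < r → q + g ≤ r)).card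

lemma adm_bound (F : Finset ℕ) (b : ℕ) (hb : F.card < b) (h : ∀ p < b, p.Prime → ∃ r : ℕ, ∀ f ∈ F, ¬ p ∣ r + f) :
    Admissible F := by
  classical
  intro p hp
  by_cases hpb : p < b
  · exact h p hpb hp
  push Not at hpb
  -- fewer classes than `p`
  have h1 : (F.image (fun f => (p - f % p) % p)).card < (range p).card := by
    rw [card_range]
    exact lt_of_le_of_lt card_image_le (by omega)
  obtain ⟨r, hr, hr'⟩ := exists_mem_notMem_of_card_lt_card h1
  refine ⟨r, fun f hf hd => hr' ?_⟩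
  rw [mem_image]
  refine ⟨f, hf, ?_⟩
  rw [mem_range] at hr
  have h2 : f % p < p := Nat.mod_lt _ hp.pos
  have h3 : (r + f % p) % p = 0 := by
    rw [Nat.add_mod_mod]
    exact Nat.mod_eq_zero_of_dvd hd
  obtain ⟨c, hc⟩ := Nat.dvd_of_mod_eq_zero h3
  have hc2 : c < 2 := by
    by_contra hcon
    push Not at hcon
    have : p * 2 ≤ p * c := Nat.mul_le_mul_left p hcon
    omega
  have h4 : c = 0 ∨ c = 1 := by omega
  rcases h4 with rfl | rfl
  · have e : r = 0 := by omega
    have e' : f % p = 0 := by omega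
    rw [e, e', Nat.sub_zero, Nat.mod_self]
  · rcases Nat.eq_zero_or_pos (f % p) with h5 | h5
    · omega
    · rw [Nat.mod_eq_of_lt (by omega)]
      omega

theorem result :
    (Admissible {0, 2, 6} ∧ Admissible {0, 2, 6, 8}) ∧ ∀ F : Finset ℕ, F.Nonempty → Admissible F →
    (∃ η c : ℝ, 0 < η ∧ 0 < c ∧ ∃ H₀ : ℕ, ∀ a H : ℕ, H₀ ≤ H →
      c * (H / Real.log H ^ F.card) ≤ (Sifted F ((H : ℝ) ^ η) a H).card) ∧
    ∀ η δ : ℝ, 0 < η → 0 < δ → ∃ h M : ℕ, 1 ≤ M ∧ ∃ κ ρ K : ℝ, 0 < κ ∧ 0 < ρ ∧ ∃ H₀ : ℕ, ∀ a H : ℕ, H₀ ≤ H →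
      ∀ Q : Finset ℕ, Q ⊆ Sifted F ((H : ℝ) ^ η) a H → δ * (H / Real.log H ^ F.card) ≤ Q.card →
        ρ * Real.log H ^ F.card ≤ (((Icc 1 ⌊K * Real.log H ^ F.card⌋₊).filter (fun g =>
          κ * (H / Real.log H ^ (2 * F.card)) ≤ gapCount Q g)).card : ℝ) ∧
        ∀ t : ℕ, M ∣ t → K * Real.log H ^ F.card ≤ t → ∃ l : List ℕ, l.length * Real.log H ^ F.card ≤ h * t ∧
          l.sum = t ∧ ∀ g ∈ l, 1 ≤ g ∧ g ≤ K * Real.log H ^ F.card ∧
            κ * (H / Real.log H ^ (2 * F.card)) ≤ gapCount Q g := by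
  classical
  refine ⟨⟨?_, ?_⟩, fun F hF hA => ⟨?_, ?_⟩⟩
  · apply adm_bound _ 4 (by decide)
    intro p hp hpp
    have h2 := hpp.two_le
    have : p = 2 ∨ p = 3 := by omega
    rcases this with rfl | rfl
    · exact ⟨1, by decide⟩
    · exact ⟨2, by decide⟩
  · apply adm_bound _ 5 (by decide)
    intro p hp hpp
    have h2 := hpp.two_le
    have : p = 2 ∨ p = 3 ∨ p = 4 := by omega
    rcases this with rfl | rfl | rfl
    · exact ⟨1, by decide⟩
    · exact ⟨2, by decide⟩
    · exact absurd hpp (by norm_num)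
  · obtain ⟨η, c, hη, hc, H₀, h⟩ := Pool.Agent.U455.RTG.low_F F hA
    refine ⟨η, c, hη, hc, H₀, fun a H hH => ?_⟩
    have h1 := h a H hH
    unfold Pool.Agent.U455.RTG.Rough at h1
    unfold Sifted
    convert h1
  · intro η δ hη hδ
    obtain ⟨κ, ρ, K₁, hκ, hρ, hK₁, X₁, hpop⟩ := Pool.Agent.U455.RTG.pop F hF η δ hη hδ
    obtain ⟨h, M, hM, K₂, Λ₀, hK₂, hec⟩ := Pool.Agent.U455.RTG.econ ρ K₁ hρ hK₁
    obtain ⟨K, hK⟩ : ∃ K : ℝ, K = max (2 * K₁) K₂ := ⟨_, rfl⟩
    have hKK₁ : 2 * K₁ ≤ K := by rw [hK]; exact le_max_left _ _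
    have hKK₂ : K₂ ≤ K := by rw [hK]; exact le_max_right _ _
    have hlim2 : Tendsto (fun H : ℕ => Real.log (H : ℝ) ^ F.card) atTop atTop :=
      (tendsto_pow_atTop hF.card_pos.ne').comp (Real.tendsto_log_atTop.comp tendsto_natCast_atTop_atTop)
    obtain ⟨X₃, hX₃⟩ := eventually_atTop.1 (hlim2.eventually_ge_atTop (max Λ₀ (1 / K₁)))
    refine ⟨h, M, hM, κ, ρ * K₁, K, hκ, by positivity, max X₁ X₃, fun a H hH Q hQ hQc => ?_⟩
    have hX₁ : X₁ ≤ H := (le_max_left _ _).trans hH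
    have hΛ := hX₃ H ((le_max_right _ _).trans hH)
    have hΛ₀ : Λ₀ ≤ Real.log (H : ℝ) ^ F.card := (le_max_left _ _).trans hΛ
    have hΛ1 : 1 / K₁ ≤ Real.log (H : ℝ) ^ F.card := (le_max_right _ _).trans hΛ
    have hQ' : Q ⊆ Pool.Agent.U455.RTG.Rough F ((H : ℝ) ^ η) a H := by
      intro q hq
      have h1 := hQ hq
      unfold Sifted at h1
      rw [mem_filter] at h1
      rw [Pool.Agent.U455.RTG.mem_Rough]
      exact h1
    have hg : ∀ g, ((Q.filter (Pool.Agent.U455.CGW.Nx Q g)).card : ℝ) = gapCount Q g := by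
      intro g
      unfold gapCount Pool.Agent.U455.CGW.Nx
      congr!
    have hpop' := hpop a H hX₁ Q hQ' hQc
    simp only [hg] at hpop'
    refine ⟨?_, fun t hMt htK => ?_⟩
    · obtain ⟨L, hL⟩ : ∃ L, L = ⌈K₁ * Real.log (H : ℝ) ^ F.card⌉₊ := ⟨_, rfl⟩
      have hL1 : K₁ * Real.log (H : ℝ) ^ F.card ≤ L := by rw [hL]; exact Nat.le_ceil _
      have h1 : 1 ≤ K₁ * Real.log (H : ℝ) ^ F.card := by
        rw [div_le_iff₀ hK₁] at hΛ1
        linarith
      have hL2 : (L : ℝ) ≤ 2 * (K₁ * Real.log (H : ℝ) ^ F.card) := by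
        have : (L : ℝ) < K₁ * Real.log (H : ℝ) ^ F.card + 1 := by
          rw [hL]; exact Nat.ceil_lt_add_one (by linarith)
        linarith
      have h2 := hpop' L hL1 hL2
      have hΛ00 : 0 ≤ Real.log (H : ℝ) ^ F.card := by
        have : 0 < 1 / K₁ := by positivity
        linarith
      calc ρ * K₁ * Real.log (H : ℝ) ^ F.card = ρ * (K₁ * Real.log (H : ℝ) ^ F.card) := by ring
        _ ≤ ρ * L := by gcongr
        _ ≤ _ := h2
        _ ≤ _ := by
          rw [Nat.cast_le]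
          apply card_le_card
          intro g hg'
          rw [mem_filter, mem_Icc] at hg' ⊢
          refine ⟨⟨hg'.1.1, hg'.1.2.trans ?_⟩, hg'.2⟩
          apply Nat.le_floor
          calc (L : ℝ) ≤ 2 * (K₁ * Real.log (H : ℝ) ^ F.card) := hL2
            _ = 2 * K₁ * Real.log (H : ℝ) ^ F.card := by ring
            _ ≤ K * Real.log (H : ℝ) ^ F.card := by gcongr
    · have hΛ00 : 0 ≤ Real.log (H : ℝ) ^ F.card := by
        have : 0 < 1 / K₁ := by positivity
        linarith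
      have htK₂ : K₂ * Real.log (H : ℝ) ^ F.card ≤ t :=
        le_trans (mul_le_mul_of_nonneg_right hKK₂ hΛ00) htK
      obtain ⟨l, h1, h2, h3⟩ := hec (Real.log (H : ℝ) ^ F.card) hΛ₀
        (fun g => κ * (H / Real.log H ^ (2 * F.card)) ≤ (gapCount Q g : ℝ)) (by
          intro L hL1 hL2
          refine ⟨_, filter_subset _ _, ?_, hpop' L hL1 hL2⟩
          intro g hg
          exact (mem_filter.1 hg).2) t hMt htK₂
      refine ⟨l, h1, h2, fun g hg => ⟨(h3 g hg).2.1, ?_, (h3 g hg).1⟩⟩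
      exact (h3 g hg).2.2.trans (mul_le_mul_of_nonneg_right hKK₂ hΛ00)

end Pool.Agent.Results.MP_3efbeb_nt.GapsOfSiftedTriples
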