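import Mathlib
import Pool.Agent.U462.Sh.ZAdm

set_option autoImplicit false

/-!
# A gcd recursion and triples `n + 1`, `n + 3`, `n + 7`: every exceptional set is possible
-/

namespace Pool.Agent.Results.MP_3f8e47_nt.ZerosIndependent

open Finset Filter
open scoped Topology
open Pool.Agent.U462.Sh.Law

/-- the `3`-periodic sequence `b(1) = 2`, `b(2) = 6`, `b(3) = 0` -/
def b (n : ℕ) : ℤ := if n % 3 = 1 then 2 else if n % 3 = 2 then 6 else 0

/-- `a N i` is `a_N(i + 1)`: `a_N(1) = N - 6`, `a_N(n) = a_N(n - 1) - gcd (a_N(n - 1), n + b(n))` -/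
def a (N : ℕ) : ℕ → ℤ
  | 0 => (N : ℤ) - 6
  | i + 1 => a N i - (Int.gcd (a N i) (((i : ℤ) + 2) + b (i + 2)) : ℤ)

/-- **Every exceptional set is possible.** For every set `E` of natural numbers there is a set `S` of rough
numbers `≥ 2` such that for `N` in `E` and every `n` with `a_N(n) = 0` the numbers `n + 1`, `n + 3`, `n + 7`
are not all in `S`, for which the uniform Hardy–Littlewood law holds for all systems of linear forms and all
intervals, except for those systems with three forms `l, l + 2, l + 6` for which `l` has in the interval a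
value `n + 1` with `a_N(n) = 0` for some `N` in `E`. -/
theorem result : ∀ E : Set ℕ, ∃ S : Set ℕ, (∀ m ∈ S, 2 ≤ m ∧ Rough m) ∧
    (∀ N ∈ E, ∀ n : ℕ, 1 ≤ n → a N (n - 1) = 0 → ¬ (n + 1 ∈ S ∧ n + 3 ∈ S ∧ n + 7 ∈ S)) ∧
    LawOn S (fun L u v => ∀ α β : ℤ, (α, β) ∈ L → (α, β + 2) ∈ L → (α, β + 6) ∈ L →
      ∀ m : ℕ, u ≤ m → m < v → ∀ N ∈ E, ∀ n : ℕ, 1 ≤ n → a N (n - 1) = 0 → value (α, β) m ≠ n + 1) := by
  classical
  intro E
  obtain ⟨S, h1, h2, h3⟩ := Pool.Agent.U462.Sh.shiftOn {0, 2, 6} (by simp)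
    {t | ∃ N ∈ E, ∃ n : ℕ, 1 ≤ n ∧ a N (n - 1) = 0 ∧ t = n + 1}
  refine ⟨S, h1, ?_, Pool.Agent.U462.Sh.on_mono ?_ h3⟩
  · rintro N hN n hn h4 ⟨h5, h6, h7⟩
    apply h2 (n + 1) ⟨N, hN, n, hn, h4, rfl⟩
    intro d hd
    simp only [mem_insert, mem_singleton] at hd
    rcases hd with rfl | rfl | rfl
    exacts [h5, h6, h7]
  · rintro L u v hL α β hab m hm1 hm2 ⟨N, hN, n, hn, h4, h5⟩
    exact hL α β (by simpa using hab 0 (by simp)) (by simpa using hab 2 (by simp))
      (by simpa using hab 6 (by simp)) m hm1 hm2 N hN n hn h4 h5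

end Pool.Agent.Results.MP_3f8e47_nt.ZerosIndependent
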