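import Pool.Agent.U331.MW.Exp
import Pool.Agent.U847.XF
import Pool.Agent.N625.PT.X8

/-!
# Sums of an `a`-prime and a prime: multiples of random integers with exchangeable pairs of opposite digits (palindromes, for example)

The even numbers are `N = h M (c + κ v)`, where `M` is the product of the primes `≤ y` and the `v` are random
integers with exchangeable pairs of opposite digits (`Mirror`): the digit number `i` from the left may determine the digit
number `i` from the right, and conversely. The sum over `v` in the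
theorem is the probability that `v` is an exception.

From Mathlib: `Nat.nth Nat.Prime`: the sequence of the primes; `primorial y`: the product of the primes `≤ y`;
`Finset.Icc 1 x`: the integers from `1` to `x`.

Method. New here: the exponential sums over such random integers. An exchange of a pair of opposite digits changes `v` by
`P b ^ (k - 1 - i) + Q b ^ i` with `P, Q ≠ 0`; if the products of a frequency with these numbers are close to integers for two
neighbouring pairs, then they determine the products with `(b ^ 4)! b ^ i` and `(b ^ 4)! b ^ (k - 2 - i)` modulo `1`. So the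
exponential sum decays exponentially in the number of the positions at which the frequency, multiplied with `(b ^ 4)!`, is
far from the integers (`Pool.Agent.U331.MW`). The passage from such a decay to the sieve, to the second moment and to the
number of the primes in random translates is helper847's (`Pool.Agent.U847.XP.SCls`, generic in the class of distributions,
after the starting files `Pool.Agent.N625.PT.X2` - `X12`),
and the representations are treated in `Pool.Agent.U847.XP.dense_sum`.
-/

set_option autoImplicit false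

namespace Pool.Agent.Results.MP_778b46_nt.MirrorMultiples

open Finset

/-- The integer whose digits in base `b` are the `i` digits of `u < b ^ i`, the `m` digits of `w < b ^ m` and the `i` digits of
`u' < b ^ i`, one after the other, from the most significant to the least significant one. -/
def frame (b m i u u' w : ℕ) : ℕ := u * b ^ (m + i) + (w * b ^ i + u')

/-- The probability, for the distribution `μ`, that the word of `m + 2 i` digits begins with the `i` digits of `u` and ends with
the `i` digits of `u'`. -/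
noncomputable def outer (b : ℕ) (μ : ℕ → ℝ) (m i u u' : ℕ) : ℝ := ∑ w ∈ range (b ^ m), μ (frame b m i u u' w)

/-- `p` is a probability on the words of `k` digits in base `b`, read as integers `v < b ^ k`. There is another probability
`μ` with `p ≤ k ^ T μ` such that, whatever the first `i` digits `u` and the last `i` digits `u'` are (`m + 2 (i + 1) = k`), two
different pairs `(a, a')` and `(c, c')`, `a ≠ c`, `a' ≠ c'`, of the next digit from the left and the next digit from the right
can be exchanged: `p (u a w a' u') = r p (u c w c' u')` for all the words `w` of `m` digits, with a factor `r` between `η` and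
`1 / η` which does not depend on `w`; and given `u` and `u'`, each of the two pairs comes next with a probability of at least
`η` in the distribution `μ`. (No digit alone needs to be exchangeable. Example: the uniform distribution on the palindromic
words, `T = 0`, `μ = p`, `η = 1 / b`, `r = 1`.) -/
structure Mirror (b : ℕ) (η : ℝ) (T k : ℕ) (p : ℕ → ℝ) : Prop where
  nonneg : ∀ v, 0 ≤ p v
  sum : ∑ v ∈ range (b ^ k), p v = 1
  dominated : ∃ μ : ℕ → ℝ, (∀ v, 0 ≤ μ v) ∧ ∑ v ∈ range (b ^ k), μ v = 1 ∧ (∀ v < b ^ k, p v ≤ (k : ℝ) ^ T * μ v) ∧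
    ∀ i m u u' : ℕ, m + 2 * (i + 1) = k → u < b ^ i → u' < b ^ i → ∃ (a a' c c' : ℕ) (r : ℝ),
      (a < b ∧ a' < b ∧ c < b ∧ c' < b) ∧ a ≠ c ∧ a' ≠ c' ∧ η ≤ r ∧ η * r ≤ 1 ∧
      (∀ w < b ^ m, p (frame b m (i + 1) (b * u + a) (a' * b ^ i + u') w) =
        r * p (frame b m (i + 1) (b * u + c) (c' * b ^ i + u') w)) ∧
      η * outer b μ (m + 2) i u u' ≤ outer b μ m (i + 1) (b * u + a) (a' * b ^ i + u') ∧
      η * outer b μ (m + 2) i u u' ≤ outer b μ m (i + 1) (b * u + c) (c' * b ^ i + u')

lemma conv {b : ℕ} {η : ℝ} {T k : ℕ} {p : ℕ → ℝ} (h : Mirror b η T k p) : Pool.Agent.U331.MW.Mirror b η T k p :=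
  ⟨h.nonneg, h.sum, h.dominated⟩

/-- The `i`-th `a`-prime, `i ≥ 1`: the function `i ↦` the `i`-th prime, iterated `a + 1` times. -/
noncomputable def ip (a i : ℕ) : ℕ := Nat.iterate (fun k : ℕ => Nat.nth Nat.Prime (k - 1)) (a + 1) i

open Classical in
/-- The `a`-primes `≤ x`. -/
noncomputable def IPs (a x : ℕ) : Finset ℕ := (Icc 1 x).filter (fun u => ∃ i : ℕ, 0 < i ∧ ip a i = u)

/-- the product of `1 - 1/q` over the primes `q ≤ y` -/
noncomputable def V (y : ℕ) : ℝ := ∏ q ∈ (Icc 1 y).filter Nat.Prime, (1 - 1 / (q : ℝ))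

/-- the multiple of the product of the primes `≤ y` given by the integers `h` and `c + κ v` -/
def Nv (y h : ℕ) (c κ : ℤ) (v : ℕ) : ℤ := ((primorial y * h : ℕ) : ℤ) * (c + κ * v)

/-- the `u ∈ S` such that `n - u` is prime -/
def Rep (S : Finset ℕ) (n : ℤ) : Finset ℕ := S.filter (fun u : ℕ => (n - u).toNat.Prime)

open Classical in
/-- Let `a ≥ 0`, `b ≥ 2`, `0 < η ≤ 1`, `T`, `κ ≠ 0`, `B`, `J`, `C` and `0 < ε ≤ 1` be fixed. Then there is a `K₀` such that for all
`K₁` and all large `k`: let `μ` be a distribution on the words of `k` digits in base `b` with `Mirror b η T k μ`, let `y`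
be between `K₀ log k` and `K₁ log k`, `M` the product of the primes `≤ y`, `|c| ≤ B b ^ k`, `1 ≤ h ≤ k ^ J`, and let `x` be an
integer with `b ^ k ≤ x k ^ C` and `x ≤ b ^ k k ^ C`. The random integer `v` with the distribution `μ` has with a probability
of at least `1 - ε` the following property: if `N = h M (c + κ v) > x`, then `N` has at least `(1 - ε) #U / (V y log b ^ k)`
representations `N = u + q`, where `u` is in the set `U` of all the `a`-primes `≤ x` and `q` is a prime. (It is known that
there are at least `c₀ x / log ^ (a + 1) x` `a`-primes `≤ x`, so that the number of the representations tends to infinity.) -/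
theorem result (a : ℕ) (b : ℕ) (hb : 2 ≤ b) (η : ℝ) (hη0 : 0 < η) (hη1 : η ≤ 1) (T : ℕ) (κ : ℤ) (hκ : κ ≠ 0)
    (B J C : ℕ) (ε : ℝ) (hε : 0 < ε) (hε1 : ε ≤ 1) : ∃ K₀ : ℕ, ∀ K₁ : ℕ, ∃ k₀ : ℕ, ∀ k : ℕ, k₀ ≤ k →
    ∀ μ : ℕ → ℝ, Mirror b η T k μ → ∀ y : ℕ, K₀ * Real.log k ≤ y → y ≤ K₁ * Real.log k →
    ∀ c : ℤ, |c| ≤ B * (b : ℤ) ^ k → ∀ h : ℕ, 1 ≤ h → h ≤ k ^ J → ∀ x : ℕ, b ^ k ≤ x * k ^ C → x ≤ b ^ k * k ^ C →
      ∑ v ∈ range (b ^ k), (if (x : ℤ) < Nv y h c κ v ∧ ((Rep (IPs a x) (Nv y h c κ v)).card : ℝ) <
          (1 - ε) * ((IPs a x).card / (V y * (k * Real.log b))) then μ v else 0) ≤ ε := by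
  obtain ⟨K₀, h0⟩ := Pool.Agent.U847.XP.dense_sum b _ hb (Pool.Agent.U331.MW.Mirror b η T)
    (Pool.Agent.U331.MW.mir_scls b hb η hη0 hη1 T) κ hκ B J (2 * (a + 1) + 1) C ε hε hε1
  refine ⟨K₀, fun K₁ => ?_⟩
  obtain ⟨k₀, h0⟩ := h0 K₁
  obtain ⟨k₁, h1⟩ := Pool.Agent.N625.PT.ip_dense b C a hb
  refine ⟨max k₀ k₁, fun k hk μ hμ y hy1 hy2 c hc h hh1 hhJ x hx1 hx2 => ?_⟩
  refine le_trans (le_of_eq ?_) (h0 k (by omega) μ (conv hμ) y hy1 hy2 c hc h hh1 hhJ x hx1 hx2 (IPs a x)
    (Pool.Agent.N625.PT.IPs_sub a x) (Pool.Agent.N625.PT.IPs_prime a x) (h1 k (by omega) x hx1 hx2))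
  apply sum_congr rfl
  intro v _
  congr!

end Pool.Agent.Results.MP_778b46_nt.MirrorMultiples
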