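import Pool.Agent.U160.FD.Pairs

/-!
# Prime pairs in progressions, uniformly in the modulus, for all differences near the dilates of almost every point of a
# measure with Fourier decay

Definitions used:
* in `Pool.Agent.U160.FD` (file `Defs`): `FourierDecay μ`: the Fourier transform `μ^(t) = ∫ exp(i t x) dμ(x)` of `μ` is
  `O(t ^ (-β))` for some `β > 0`; `FourierSmall μ`: there are `h ≥ 1`, `c` and `K` with
  `∫_0^T |μ^(t)| ^ (2 h) dt ≤ K (log T) ^ c` for all `T ≥ 2`;
* `Pool.Agent.H560R3.GB.C₂`, the twin prime constant `∏_{p > 2} (1 - 1 / (p - 1) ^ 2)`.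

Method (`Pool.Agent.U160.FD`): the signed sums of `2 h` independent points of `μ` are in an interval of length `r` with
probability at most `r (log 1 / r) ^ c` up to a constant, by the moment of the Fourier transform; thus the weights
`μ{x : ⌊λ x⌋ = a}` have nearly minimal additive energy of order `h`, they are approximated by finite families (with
multiplicities), and the theorem of the starting files on prime pairs in progressions for families of nearly minimal
energy (`Pool.Agent.TH935.DF.gd_fam`) bounds the measure of the exceptional points; Borel-Cantelli.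
-/

set_option autoImplicit false

namespace Pool.Agent.Results.MP_92ef0c_nt.FourierDecay

open MeasureTheory Filter Finset Pool.Agent.H560R3.GB Pool.Agent.U160.FD

open Classical in
/-- `π_d(x; a, q)`: the number of primes `p ≤ x` with `p + d ≤ x` prime and `p ≡ a (mod q)`. (For even
`d > 0` such a prime `p` is automatically odd.) -/
noncomputable def pairs (d : ℕ) (x : ℝ) (a q : ℕ) : ℕ :=
  ((range (⌊x⌋₊ + 1)).filter (fun p => p.Prime ∧ (p + d).Prime ∧ (p : ℝ) + d ≤ x ∧ p ≡ a [MOD q])).card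

/-- The main term `M_d(x; q)` of the problem. -/
noncomputable def main (d : ℕ) (x : ℝ) (q : ℕ) : ℝ :=
  2 / (((range q).filter (fun α => Nat.Coprime α q ∧ Nat.Coprime (α + d) q)).card : ℝ) *
    (∏ p ∈ d.primeFactors.filter (fun p => 2 < p), ((p : ℝ) - 1) / ((p : ℝ) - 2)) * C₂ *
    ∫ t in (2 : ℝ)..x, 1 / Real.log t ^ 2

/-- The estimate of the problem with the bound `X / (log X) ^ C`, for all `x ≤ X`, all moduli
`q ≤ (log X) ^ B`, all admissible classes `a`, and all even `d` with `D ≤ d ≤ D + (log X) ^ A`. -/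
def Holds (A B C X D : ℕ) : Prop :=
  ∀ d q a : ℕ, D ≤ d → (d : ℝ) ≤ D + Real.log X ^ A → 0 < d → Even d → 1 ≤ q → (q : ℝ) ≤ Real.log X ^ B →
    Nat.Coprime a q → Nat.Coprime (a + d) q → ∀ x : ℝ, 2 ≤ x → x ≤ X →
    |(pairs d x a q : ℝ) - main d x q| ≤ X / Real.log X ^ C

/-- `Holds A B C X D` for all the `X` between `D (log X) ^ (C + 12)` and `D (log X) ^ V`. -/
def HoldsAll (A B C V D : ℕ) : Prop :=
  ∀ X : ℕ, (D : ℝ) * Real.log X ^ (C + 12) ≤ X → (X : ℝ) ≤ D * Real.log X ^ V → Holds A B C X D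

lemma holds_of (A B C X D : ℕ) (hgood : Pool.Agent.W93.PP.GoodD A B C X D) : Holds A B C X D := by
  intro d q a hd1 hd2 hd0 hdev hq1 hq2 ha had x hx2 hxX
  obtain ⟨δ, hδ⟩ := Nat.exists_eq_add_of_le hd1
  subst hδ
  have hδL : (δ : ℝ) ≤ Real.log X ^ A := by
    push_cast at hd2 ⊢
    linarith
  have h2 := hgood δ q a hδL hq1 hq2 ha had hdev.two_dvd hd0.ne' x hx2 hxX
  have e1 : main (D + δ) x q =
      sing (D + δ) / Pool.Agent.W93.PP.Cnt q (D + δ) * Pool.Agent.W93.PP.Li2 x := by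
    unfold main sing Pool.Agent.W93.PP.Cnt Pool.Agent.W93.PP.Li2
    ring
  rw [e1]
  exact h2

/-- Let `μ` be a probability measure on the line whose Fourier transform is `O(t ^ (-β))` for some `β > 0`, or
satisfies the weaker condition `FourierSmall` (for example a measure on a set of arbitrarily small positive dimension).

(1) Let `λ_j` be any sequence with `λ_j ≥ exp (j ^ δ)` for large `j`, for some `δ > 0`. Then for `μ`-almost every `x > 0`:
for all `A`, `B`, `C`, `V`, `W` and all large `j`, all the integers `D` with `|D - λ_j x| ≤ (log λ_j) ^ W` have the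
following property: for all `X` between `D (log X) ^ (C + 12)` and `D (log X) ^ V`, all even `d > 0` with
`D ≤ d ≤ D + (log X) ^ A`, all `x ≤ X`, all `q ≤ (log X) ^ B` and all `a` with `(a, q) = (a + d, q) = 1`,
`|π_d(x; a, q) - M_d(x; q)| ≤ X / (log X) ^ C`.

(2) For `μ`-almost every `x > 0` this holds for `λ_j = b ^ j` in all bases `b ≥ 2` at once: all the integers `D` at a
distance of at most `j ^ W` from the integer consisting of the first digits of `x` (up to the `j`-th digit after the point)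
in base `b` have this property, for all large `j`. -/
theorem result (μ : Measure ℝ) [IsProbabilityMeasure μ] (hμ : FourierSmall μ ∨ FourierDecay μ) :
    (∀ (lam : ℕ → ℝ) (δ : ℝ), 0 < δ → (∀ᶠ j : ℕ in atTop, Real.exp ((j : ℝ) ^ δ) ≤ lam j) →
      ∀ᵐ x ∂μ, 0 < x → ∀ A B C V W : ℕ, ∀ᶠ j : ℕ in atTop, ∀ D : ℕ,
        |(D : ℝ) - lam j * x| ≤ Real.log (lam j) ^ W → HoldsAll A B C V D) ∧
    (∀ᵐ x ∂μ, 0 < x → ∀ b : ℕ, 2 ≤ b → ∀ A B C V W : ℕ, ∀ᶠ j : ℕ in atTop, ∀ D : ℕ,
      |(D : ℝ) - (b : ℝ) ^ j * x| ≤ (j : ℝ) ^ W → HoldsAll A B C V D) := by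
  have hμ' : FourierSmall μ := hμ.elim id FourierDecay.small
  have h1 : ∀ (lam : ℕ → ℝ) (δ : ℝ), 0 < δ → (∀ᶠ j : ℕ in atTop, Real.exp ((j : ℝ) ^ δ) ≤ lam j) →
      ∀ᵐ x ∂μ, 0 < x → ∀ A B C V W : ℕ, ∀ᶠ j : ℕ in atTop, ∀ D : ℕ,
        |(D : ℝ) - lam j * x| ≤ Real.log (lam j) ^ W → HoldsAll A B C V D := by
    intro lam δ hδ hlam
    have h2 : ∀ᵐ x ∂μ, ∀ A B C V W : ℕ, 0 < x → ∀ᶠ j : ℕ in atTop, ∀ D : ℕ,
        |(D : ℝ) - lam j * x| ≤ Real.log (lam j) ^ W → HoldsAll A B C V D := by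
      rw [ae_all_iff]; intro A
      rw [ae_all_iff]; intro B
      rw [ae_all_iff]; intro C
      rw [ae_all_iff]; intro V
      rw [ae_all_iff]; intro W
      filter_upwards [ae_pos μ hμ' (AllX A B C V) (fun h C₀ U _ => pairsH A B C V h C₀ U) lam δ hδ hlam W] with x hx hx0
      filter_upwards [hx hx0] with j hj D hD X hX1 hX2
      exact holds_of A B C X D (hj D hD X hX1 hX2)
    filter_upwards [h2] with x hx hx0 A B C V W
    exact hx A B C V W hx0
  refine ⟨h1, ?_⟩
  have h3 : ∀ᵐ x ∂μ, ∀ b : ℕ, 2 ≤ b → 0 < x → ∀ A B C V W : ℕ, ∀ᶠ j : ℕ in atTop, ∀ D : ℕ,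
        |(D : ℝ) - (b : ℝ) ^ j * x| ≤ Real.log ((b : ℝ) ^ j) ^ W → HoldsAll A B C V D := by
    rw [ae_all_iff]
    intro b
    by_cases hb : 2 ≤ b
    · filter_upwards [h1 (fun j => (b:ℝ) ^ j) (1 / 2) (by norm_num) (exp_le_pow b hb)] with x hx _
      exact hx
    · exact ae_of_all _ fun x h => absurd h hb
  filter_upwards [h3] with x hx hx0 b hb A B C V W
  filter_upwards [hx b hb hx0 A B C V (W + 1), pow_le_log b W hb] with j hj1 hj2 D hD
  exact hj1 D (hD.trans hj2)

end Pool.Agent.Results.MP_92ef0c_nt.FourierDecay
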