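import Pool.Agent.U832.RG.PrimeSlopes
import Pool.Agent.U832.RH.GeE

/-!
# Primes `p` with all `a_i p + 1` almost prime, uniformly in `a_i ≤ x ^ A`, and the process around them

Uniformly over all admissible sets `{a_1, …, a_s}` with `a_i ≤ x ^ A` let `S` be the set of the `n` for which none of the
numbers `n, a_1 n + 1, …, a_s n + 1` has a prime factor `≤ x ^ (1 / r)`. Around the PRIMES in `S`, that is around the
primes `p` for which no `a_i p + 1` has a prime factor `≤ x ^ (1 / r)`, the elements of `S` form a Poisson process: the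
numbers of elements of `S` in disjoint windows are independent Poisson variables. The same holds around arbitrary
elements of `S`, around arbitrary integers, and around the `n` for which the numbers `n, a_1 n + 1, …, a_s n + 1` have at
most `M` prime factors each, all `> x ^ v` (`M` and `v` do not depend on the windows), there in all intervals of length
`≥ x ^ θ`.
-/

set_option autoImplicit false

namespace Pool.Agent.Results.MP_bca3e5_nt.UniformPoisson

open Finset Filter Pool.Agent.U832.RG Pool.Agent.U832.RH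

variable {s : ℕ}

/-- `𝒜 = {a_1, …, a_s}` is an admissible set of `s` distinct positive integers. -/
def Admissible (a : Fin s → ℕ) : Prop :=
  Function.Injective a ∧ (∀ i, 1 ≤ a i) ∧
    ∀ p : ℕ, p.Prime → ∃ n : ℕ, 1 ≤ n ∧ ¬ p ∣ n * ∏ i, (a i * n + 1)

/-- The `n` for which no prime `p ≤ y` divides one of the numbers `n, a_1 n + 1, …, a_s n + 1`. -/
def Rough (a : Fin s → ℕ) (y : ℕ) : Set ℕ := {n | ∀ p : ℕ, p.Prime → p ≤ y → ¬ p ∣ n ∧ ∀ i, ¬ p ∣ a i * n + 1}

/-- The `n` for which the numbers `n, a_1 n + 1, …, a_s n + 1` have at most `M` prime factors each, counted with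
multiplicity, all `> z`. -/
def AlmostRough (a : Fin s → ℕ) (M z : ℕ) : Set ℕ :=
  {n | n ∈ Rough a z ∧ n.primeFactorsList.length ≤ M ∧ ∀ i, (a i * n + 1).primeFactorsList.length ≤ M}

open Classical in
/-- The number of the `n` modulo `p` with `n ∏ (a_i n + 1) ≡ 0`. -/
noncomputable def w (a : Fin s → ℕ) (p : ℕ) : ℕ := ((range p).filter (fun n => p ∣ n * ∏ i, (a i * n + 1))).card

/-- The product of `1 - w a p / p` over the primes `p ≤ y`. -/
noncomputable def V (a : Fin s → ℕ) (y : ℕ) : ℝ := ∏ p ∈ (Icc 1 y).filter Nat.Prime, (1 - (w a p : ℝ) / p)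

section aux

open Pool.Agent.TH464.PO Pool.Agent.H373R2.T7 Pool.Agent.W123.RP
open Pool.Agent.W123.RU.Poly (Q)

/-- the system -/
def sa (a : Fin s → ℕ) : Fin (s + 1) → ℤ := Fin.cons 1 (fun i => (a i : ℤ))

/-- the system -/
def sb (s : ℕ) : Fin (s + 1) → ℤ := Fin.cons 0 (fun _ => 1)

lemma sQ (a : Fin s → ℕ) (p m : ℕ) : Q (ls (sa a) (sb s)) p m ↔ p ∣ m ∨ ∃ i, p ∣ a i * m + 1 := by
  rw [ls_Q, Fin.exists_fin_succ]
  unfold sa sb
  simp only [Fin.cons_zero, Fin.cons_succ, one_mul, add_zero]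
  rw [Int.natCast_dvd_natCast]
  apply or_congr Iff.rfl
  apply exists_congr
  intro i
  rw [show ((a i : ℤ) * m + 1) = ((a i * m + 1 : ℕ) : ℤ) by push_cast; ring]
  exact Int.natCast_dvd_natCast

lemma pz_eq (y : ℕ) : pz y = (Icc 1 y).filter Nat.Prime := by
  ext p
  rw [mem_pz, mem_filter, mem_Icc]
  constructor
  · exact fun h => ⟨⟨h.2.one_lt.le, h.1⟩, h.2⟩
  · exact fun h => ⟨h.1.2, h.2⟩

lemma rough_iff (a : Fin s → ℕ) (y m : ℕ) : m ∈ Rough a y ↔ Sf (Q (ls (sa a) (sb s))) y m := by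
  constructor
  · intro h p hp
    rw [sQ]
    push Not
    exact h p (mem_pz.1 hp).2 (mem_pz.1 hp).1
  · intro h p hp hpy
    have h1 := h p (mem_pz.2 ⟨hpy, hp⟩)
    rw [sQ] at h1
    push Not at h1
    exact h1

lemma w_iff (a : Fin s → ℕ) (p : ℕ) (hp : p.Prime) (m : ℕ) :
    Q (ls (sa a) (sb s)) p m ↔ p ∣ m * ∏ i, (a i * m + 1) := by
  rw [sQ, hp.dvd_mul, hp.prime.dvd_finsetProd_iff]
  simp

lemma w_eq (a : Fin s → ℕ) (p : ℕ) (hp : p.Prime) : nuB (Q (ls (sa a) (sb s))) p = w a p := by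
  classical
  unfold w nuB
  congr 1
  ext m
  rw [mem_filter, mem_filter, w_iff a p hp]

lemma V_eq (a : Fin s → ℕ) (y : ℕ) : Vq (Q (ls (sa a) (sb s))) y = V a y := by
  unfold Vq V
  rw [pz_eq]
  apply Finset.prod_congr rfl
  intro p hp
  rw [w_eq a p (mem_filter.1 hp).2]

lemma ne_one (a : Fin s → ℕ) (h : Admissible a) (i : Fin s) : a i ≠ 1 := by
  intro h1
  obtain ⟨n, _, hn⟩ := h.2.2 2 Nat.prime_two
  apply hn
  rcases Nat.even_or_odd n with he | ho
  · exact Dvd.dvd.mul_right he.two_dvd _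
  · apply Dvd.dvd.mul_left
    refine Dvd.dvd.trans ?_ (Finset.dvd_prod_of_mem (fun i => a i * n + 1) (mem_univ i))
    show 2 ∣ a i * n + 1
    rw [h1, one_mul]
    exact (ho.add_odd odd_one).two_dvd

lemma ls_ok (a : Fin s → ℕ) (h : Admissible a) : LS (sa a) (sb s) where
  pos j := by
    unfold sa
    refine Fin.cases ?_ (fun i => ?_) j
    · simp
    · have := h.2.1 i
      simp only [Fin.cons_succ]
      omega
  inj := by
    unfold sa
    intro i j
    refine Fin.cases ?_ (fun i => ?_) i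
    · refine Fin.cases ?_ (fun j => ?_) j
      · intro _
        rfl
      · intro h1
        simp only [Fin.cons_zero, Fin.cons_succ] at h1
        exact absurd (by exact_mod_cast h1.symm) (ne_one a h j)
    · refine Fin.cases ?_ (fun j => ?_) j
      · intro h1
        simp only [Fin.cons_zero, Fin.cons_succ] at h1
        exact absurd (by exact_mod_cast h1) (ne_one a h i)
      · intro h1
        simp only [Fin.cons_succ] at h1
        have h2 : a i = a j := by exact_mod_cast h1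
        rw [h.1 h2]
  cop j := by
    unfold sa sb
    refine Fin.cases ?_ (fun i => ?_) j
    · exact isCoprime_one_left
    · exact isCoprime_one_right
  adm p hp := by
    obtain ⟨m, _, hm⟩ := h.2.2 p hp
    refine ⟨m, fun i hi => hm ?_⟩
    rw [← w_iff a p hp, ls_Q]
    exact ⟨i, hi⟩

lemma base (a : Fin s → ℕ) : ∃ i, ∀ n : ℕ, (ls (sa a) (sb s) i).eval (n : ℤ) = n := by
  refine ⟨0, fun n => ?_⟩
  unfold ls sa sb
  simp [Pool.Agent.Y879.GL.lf]

lemma almost_iff (a : Fin s → ℕ) (x z n : ℕ) (v A : ℝ) (hA : 0 < A) (hx : 2 ≤ x) (hv : 0 < v)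
    (hz : z = ⌊(x : ℝ) ^ v⌋₊) (hz2 : 2 ≤ z) (ha : ∀ i, (a i : ℝ) ≤ (x : ℝ) ^ A) (hn : n ≤ x) :
    n ∈ AlmostRough a ⌊(A + 2) / v⌋₊ z ↔ n ∈ Rough a z := by
  have hxr : (2 : ℝ) ≤ x := by exact_mod_cast hx
  have hx0 : (0 : ℝ) < x := by linarith
  have h2 : (1 : ℝ) ≤ (x : ℝ) ^ A := Real.one_le_rpow (by linarith) hA.le
  have hnr : (n : ℝ) ≤ x := by exact_mod_cast hn
  have e : (x : ℝ) ^ (A + 2) = (x : ℝ) ^ A * (x * x) := by rw [Real.rpow_add hx0, Real.rpow_two, sq]
  refine ⟨fun h => h.1, fun h => ⟨h, ?_, fun i => ?_⟩⟩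
  · apply few_factors x v (A + 2) hx hv
    · intro h0
      exact (h 2 Nat.prime_two hz2).1 (by rw [h0]; exact dvd_zero 2)
    · rw [e]
      nlinarith [mul_pos hx0 hx0]
    · intro p hp hpz
      exact (h p hp (by rw [hz]; exact hpz)).1
  · apply few_factors x v (A + 2) hx hv _ (by omega)
    · push_cast
      have h1 : (a i : ℝ) * n ≤ (x : ℝ) ^ A * x := mul_le_mul (ha i) hnr (Nat.cast_nonneg _) (by positivity)
      rw [e]
      have h3 : (1 : ℝ) ≤ (x : ℝ) ^ A * x := by nlinarith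
      have h4 : 2 * ((x : ℝ) ^ A * x) ≤ x * ((x : ℝ) ^ A * x) :=
        mul_le_mul_of_nonneg_right hxr (by positivity)
      nlinarith
    · intro p hp hpz
      exact (h p hp (by rw [hz]; exact hpz)).2 i

end aux

/-- Let `s ≥ 1`, `A, θ, η > 0`, `0 < δ ≤ 1`. There are `v > 0` and `M`, such that for all `J`, `L`, `x₀`, all `ε > 0`
and all large `r`: for all large `x`, with `y = ⌊x ^ (1 / r)⌋`, `z = ⌊x ^ v⌋`, for ALL admissible `a_1, …, a_s ≤ x ^ A`
and all `T` with `T V ≤ x₀`, `V = V a y`, the set `Rough a y` satisfies: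
(1) `PrimeLaw` for all `X ≥ x ^ θ` and all `(Z, Z + Y]` with `δ X ≤ Z`, `δ X ≤ Y`, `Z + Y ≤ X`: for all disjoint
windows `(c j, b j] ⊆ (0, T]`, `j < J`, all `t ≤ T` outside of them and all `k j ≤ L`, the number of the `n` in
`(Z, Z + Y]` for which `n + t` is a PRIME in `Rough a y` and exactly `k j` elements of `Rough a y` lie in
`(n + c j, n + b j]` for all `j` is `Y V / (mertens y * log X) Π` up to `ε Y V / (mertens y * log X)`, where `Π` is the
product of the probabilities that a Poisson variable of mean `(b j - c j) V` has the value `k j`. (For `J = 0` this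
is the number of the primes `p` for which no `a_i p + 1` has a prime factor `≤ y`.)
(2) `PoissonLaw` for ALL intervals `(Z, Z + Y]` with `Y ≥ x ^ θ`: the same for arbitrary elements `n + t` of
`Rough a y`, with `Y V` instead of `Y V / (mertens y * log X)`, and for arbitrary integers `n`, with `Y`.
(3) `CentreLaw` if moreover `Z + Y + T ≤ x`: the number of the `n` in `(Z, Z + Y]` with `n + t ∈ AlmostRough a M z`,
with the same windows, is `Y W Π` up to `(η Π + ε) Y W`, `W = V a z`. -/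
theorem result (s : ℕ) (hs : 1 ≤ s) (A θ δ η : ℝ) (hA : 0 < A) (hθ : 0 < θ) (hδ : 0 < δ) (hδ1 : δ ≤ 1) (hη : 0 < η) :
    ∃ v : ℝ, 0 < v ∧ ∃ M : ℕ, ∀ (J L : ℕ) (x₀ ε : ℝ), 0 < ε →
    ∃ r₀ : ℕ, ∀ r : ℕ, r₀ ≤ r → ∀ᶠ x : ℕ in atTop, ∀ y z : ℕ, y = ⌊(x : ℝ) ^ (1 / (r : ℝ))⌋₊ → z = ⌊(x : ℝ) ^ v⌋₊ →
      ∀ a : Fin s → ℕ, Admissible a → (∀ i, (a i : ℝ) ≤ (x : ℝ) ^ A) → ∀ T : ℕ, T * V a y ≤ x₀ →
        (∀ X Z Y : ℕ, (x : ℝ) ^ θ ≤ X → δ * X ≤ Z → δ * X ≤ Y → Z + Y ≤ X →
          PrimeLaw (Rough a y) (V a y) y J L ε X Z Y T) ∧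
        ∀ Z Y : ℕ, (x : ℝ) ^ θ ≤ Y → PoissonLaw (Rough a y) (V a y) J L ε Z Y T ∧
          (Z + Y + T ≤ x → CentreLaw (AlmostRough a M z) (Rough a y) (V a z) (V a y) J L η ε Z Y T) := by
  have bd : ∀ (x : ℕ) (a : Fin s → ℕ), 1 ≤ x → (∀ i, (a i : ℝ) ≤ (x : ℝ) ^ A) →
      (∀ i, |(((sa a) i : ℤ) : ℝ)| ≤ (x : ℝ) ^ A) ∧ ∀ i, |(((sb s) i : ℤ) : ℝ)| ≤ (x : ℝ) ^ A := by
    intro x a hx h
    have h1 : (1 : ℝ) ≤ (x : ℝ) ^ A := Real.one_le_rpow (by exact_mod_cast hx) hA.le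
    constructor
    · intro i
      unfold sa
      refine Fin.cases ?_ (fun i => ?_) i
      · simpa using h1
      · simp only [Fin.cons_succ]
        rw [Int.cast_natCast, Nat.abs_cast]
        exact h i
    · intro i
      unfold sb
      refine Fin.cases ?_ (fun i => ?_) i
      · simp only [Fin.cons_zero, Int.cast_zero, abs_zero]
        linarith
      · simpa using h1
  obtain ⟨v, hv, hG⟩ := lawG_ls (s + 1) (by omega) A θ hA hθ η hη
  refine ⟨v, hv, ⌊(A + 2) / v⌋₊, ?_⟩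
  intro J L x₀ ε hε
  obtain ⟨R₁, h1⟩ := law_ls (s + 1) (by omega) A θ hA hθ J L x₀ ε hε
  obtain ⟨R₂, h2⟩ := plaw_ls (s + 1) (by omega) A θ δ hA hθ hδ hδ1 J L x₀ ε hε
  obtain ⟨R₃, h3⟩ := hG J L x₀ ε hε
  have hpow : Tendsto (fun X : ℕ => (X : ℝ) ^ v) atTop atTop :=
    (tendsto_rpow_atTop hv).comp tendsto_natCast_atTop_atTop
  refine ⟨max (max R₁ R₂) R₃, fun R hR => ?_⟩
  filter_upwards [h1 R (((le_max_left _ _).trans (le_max_left _ _)).trans hR),
    h2 R (((le_max_right _ _).trans (le_max_left _ _)).trans hR), h3 R ((le_max_right _ _).trans hR),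
    hpow.eventually_ge_atTop 2, eventually_ge_atTop 2] with x hx hx' hx'' hxv hx2
  intro y z hy hz a ha hax T hT
  have hx1 : 1 ≤ x := by omega
  have hz2 : 2 ≤ z := by
    rw [hz]
    exact Nat.le_floor (by exact_mod_cast hxv)
  refine ⟨fun X Z Y hX hZ hY hZY => ?_, fun Z Y hY => ⟨?_, fun hZ => ?_⟩⟩
  · have h4 := hx' (sa a) (sb s) (ls_ok a ha) (bd x a hx1 hax).1 (bd x a hx1 hax).2 (base a) X Z Y hX hZ hY hZY T
    rw [← hy, V_eq] at h4
    exact h4 hT (Rough a y) (fun m _ => rough_iff a y m)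
  · have h4 := hx (sa a) (sb s) (ls_ok a ha) (bd x a hx1 hax).1 (bd x a hx1 hax).2 Z Y hY T
    rw [← hy, V_eq] at h4
    exact h4 hT (Rough a y) (fun m _ => rough_iff a y m)
  · have h4 := hx'' y z hy hz (sa a) (sb s) (ls_ok a ha) (bd x a hx1 hax).1 (bd x a hx1 hax).2 Z Y hY T
    rw [V_eq, V_eq] at h4
    exact h4 hT (AlmostRough a ⌊(A + 2) / v⌋₊ z) (Rough a y) (fun m _ => rough_iff a y m)
      (fun m hm => (almost_iff a x z m v A hA hx2 hv hz hz2 hax (by omega)).trans (rough_iff a z m))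

end Pool.Agent.Results.MP_bca3e5_nt.UniformPoisson
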