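import Pool.Agent.U255.CC.Sys

set_option autoImplicit false

/-!
# Chains of the first kind without small prime factors: the joint law of the gaps and the residues of their starts

Let `T(m) = a m + b` be a linear map with integer coefficients; `a = 2`, `b = 1` for the chains of the first kind. The
chain of length `k` with the start `n` is `n, T(n), ..., T^(k-1)(n)`. Call `n` a start at the level `w` if no term of
this chain has a prime factor `p ≤ w`. Every chain of `k` primes `> w` has such a start, and if `n` is a start and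
`0 < |T^i(n)| ≤ w ^ s`, then `T^i(n)` has at most `s` prime factors. Modulo a prime `p` the number of the forbidden
residues of `n` is the minimum of `k` and the period of `0` under `T` modulo `p`; for the chains of the first kind and
`p > 2` the period is the order of `2` modulo `p`. The possible residues of the starts modulo `q` are the `R` elements of
`residues`, and the density of the starts is `δ = (R / q) ∏ (1 - min(k, period(p)) / p)`, over the primes `p ≤ w` which
do not divide `q`. It has the order of magnitude `(log w) ^ (-k)`.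

For all `k, A, q, l` and `ε` there is `K₀` such that for all `K ≥ K₀` and all large `w` the following holds UNIFORMLY in
all maps `T` without a local obstruction, with `|a|, |b| ≤ w ^ (A K)`, and in ALL intervals `(Z, Z + Y]` of length
`Y ≥ w ^ K`: for all residues `β_0, ..., β_l` in `residues` and all `s_j ≤ t_j` the number of the starts `n` in the
interval with `n ≡ β_0 (mod q)` such that the `l` next starts are congruent to `β_1, ..., β_l` and the `l` distances are
in `(s_j, t_j]`, is

`δ Y R ^ (-l - 1) ∏_j (exp (- δ s_j) - exp (- δ t_j))`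

up to `ε δ Y R ^ (-l - 1)`.
-/

namespace Pool.Agent.Results.MP_c77da8_nt.GapsAndResiduesOfChains

open Finset Filter

/-- `T^i(n)`, where `T(m) = a m + b` -/
def term (a b : ℤ) (i : ℕ) (n : ℤ) : ℤ := (fun m : ℤ => a * m + b)^[i] n

/-- `n` is the start of a chain of length `k` at the level `w`: none of the `k` numbers `n, T(n), ..., T^(k-1)(n)` has
a prime factor `p ≤ w`. -/
def Start (a b : ℤ) (k w n : ℕ) : Prop :=
  ∀ i < k, ∀ p : ℕ, p.Prime → p ≤ w → ¬ (p : ℤ) ∣ term a b i n

/-- the next start after `n` -/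
noncomputable def next (a b : ℤ) (k w n : ℕ) : ℕ := sInf {m | n < m ∧ Start a b k w m}

/-- the residues `β` modulo `q` such that `β, T(β), ..., T^(k-1)(β)` are prime to `q` -/
def residues (a b : ℤ) (k q : ℕ) : Finset ℕ :=
  (range q).filter (fun β : ℕ => ∀ i < k, Int.gcd (term a b i β) q = 1)

open Classical in
/-- the period of the residue `0` modulo the prime number `p` under `T`, if `p` does not divide `a`, and `1` if `p`
divides `a` -/
noncomputable def period (a b : ℤ) (p : ℕ) : ℕ :=
  if (p : ℤ) ∣ a * b then 1 else if (p : ℤ) ∣ a - 1 then p else orderOf (a : ZMod p)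

/-- the density of the starts at the level `w` -/
noncomputable def density (a b : ℤ) (k w q : ℕ) : ℝ :=
  (residues a b k q).card / (q : ℝ) *
    ∏ p ∈ (Icc 1 w).filter (fun p => p.Prime ∧ ¬ p ∣ q), (1 - (min k (period a b p) : ℕ) / (p : ℝ))

/-- The number of the starts `n` in `(Z, Z + Y]` such that `n ≡ β 0` and the next `l` starts are `≡ β 1, ..., β l`
modulo `q`, and the `l` distances between these `l + 1` consecutive starts are in `(s j, t j]`. -/
noncomputable def count (a b : ℤ) (k w q l : ℕ) (β s t : ℕ → ℕ) (Z Y : ℕ) : ℕ :=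
  Set.ncard {n : ℕ | Z < n ∧ n ≤ Z + Y ∧ Start a b k w n ∧ (∀ j ≤ l, (next a b k w)^[j] n % q = β j) ∧
    ∀ j < l, s j < (next a b k w)^[j + 1] n - (next a b k w)^[j] n ∧
      (next a b k w)^[j + 1] n - (next a b k w)^[j] n ≤ t j}

/-- There is no local obstruction for the chains of length `k` of the map `T`: `|a| ≥ 2`, `a` and `b` are coprime, and
every prime `p ≤ k` which divides `a - 1` divides `b`. -/
def Admissible (k : ℕ) (a b : ℤ) : Prop :=
  2 ≤ |a| ∧ IsCoprime a b ∧ ∀ p : ℕ, p.Prime → p ≤ k → (p : ℤ) ∣ a - 1 → (p : ℤ) ∣ b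

open Pool.Agent.W123.RP Pool.Agent.H373R2.T7 Pool.Agent.W123.RU Pool.Agent.W123.RU.Poly
  Pool.Agent.TH464.PO Pool.Agent.TH464.PW Pool.Agent.Y879.GL Pool.Agent.R463.PP Pool.Agent.U404.JL
  Pool.Agent.U255.CC

lemma term_c (a b : ℤ) : term a b = Pool.Agent.U255.CC.term a b := rfl

lemma start_iff (a b : ℤ) (k w : ℕ) : Start a b k w = Sf (Q (sys a b k)) w := by
  funext n
  apply propext
  unfold Start Sf
  constructor
  · intro h p hp hQ
    rw [Q_sys] at hQ
    obtain ⟨i, hi, hd⟩ := hQ
    obtain ⟨h1, h2⟩ := mem_pz.1 hp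
    exact h i hi p h2 h1 hd
  · intro h i hi p hp hpw hd
    exact h p (mem_pz.2 ⟨hpw, hp⟩) ((Q_sys a b k p n).2 ⟨i, hi, hd⟩)

lemma residues_eq (a b : ℤ) (k q : ℕ) : residues a b k q = rf (sys a b k) q := by
  classical
  unfold residues rf
  apply filter_congr
  intro β _
  constructor
  · intro h p hp hpq hQ
    rw [Q_sys] at hQ
    obtain ⟨i, hi, hd⟩ := hQ
    have h2 : (p : ℤ) ∣ Int.gcd (term a b i β) (q : ℤ) := Int.dvd_coe_gcd hd (by exact_mod_cast hpq)
    rw [h i hi] at h2
    have h3 : p ∣ 1 := by exact_mod_cast h2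
    exact hp.one_lt.ne' (Nat.dvd_one.1 h3)
  · intro h i hi
    by_contra hcon
    obtain ⟨p, hp, hpd⟩ := Nat.exists_prime_and_dvd hcon
    have h1 : (p : ℤ) ∣ term a b i β := (Int.natCast_dvd_natCast.2 hpd).trans (Int.gcd_dvd_left _ _)
    have h2 : (p : ℤ) ∣ (q : ℤ) := (Int.natCast_dvd_natCast.2 hpd).trans (Int.gcd_dvd_right _ _)
    exact h p hp (by exact_mod_cast h2) ((Q_sys a b k p β).2 ⟨i, hi, h1⟩)

lemma count_eq (a b : ℤ) (k w q l : ℕ) (β s t : ℕ → ℕ) (Z Y : ℕ) :
    count a b k w q l β s t Z Y = cG (Sf (Q (sys a b k)) w) q l β s t Z Y := by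
  unfold count cG next nxt
  rw [start_iff]

lemma density_eq (a b : ℤ) (k w q : ℕ) (hk : 1 ≤ k) (hab : IsCoprime a b) :
    density a b k w q = (residues a b k q).card / (q : ℝ) * Vq (Qd (Q (sys a b k)) q) w := by
  rw [Vd_eq]
  unfold density
  congr 1
  apply prod_congr rfl
  intro p hp
  rw [mem_filter] at hp
  rw [nuB_sys, roots_eq a b k p hp.2.1 hk hab]
  rfl

/-- few prime factors -/
lemma few (z s N : ℕ) (hN : 0 < N) (hNz : N ≤ z ^ s) (h : ∀ p : ℕ, p.Prime → p ≤ z → ¬ p ∣ N) :
    N.primeFactorsList.length ≤ s := by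
  by_contra hcon
  rw [not_le] at hcon
  have h1 : ∀ q ∈ N.primeFactorsList, z + 1 ≤ q := by
    intro q hq
    by_contra h2
    exact h q (Nat.prime_of_mem_primeFactorsList hq) (by omega) (Nat.dvd_of_mem_primeFactorsList hq)
  have h2 : (z + 1) ^ N.primeFactorsList.length ≤ N.primeFactorsList.prod := List.pow_card_le_prod _ _ h1
  rw [Nat.prod_primeFactorsList hN.ne'] at h2
  have h3 : z ^ s < (z + 1) ^ N.primeFactorsList.length := by
    calc z ^ s ≤ (z + 1) ^ s := Nat.pow_le_pow_left (by omega) s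
      _ < (z + 1) ^ N.primeFactorsList.length := Nat.pow_lt_pow_right (by
          rcases Nat.eq_zero_or_pos z with h4 | h4
          · exfalso
            subst h4
            rcases Nat.eq_zero_or_pos s with h5 | h5
            · subst h5
              have : N = 1 := by simp at hNz; omega
              rw [this] at hcon
              simp at hcon
            · rw [Nat.zero_pow h5] at hNz
              omega
          · omega) hcon
  omega

lemma law (k A q l : ℕ) (hk : 1 ≤ k) (hq : 1 ≤ q) (ε : ℝ) (hε : 0 < ε) : ∃ K₀ : ℕ, ∀ K : ℕ, K₀ ≤ K →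
    ∃ w₀ : ℕ, ∀ w : ℕ, w₀ ≤ w → ∀ a b : ℤ, Admissible k a b →
    |a| ≤ (w : ℤ) ^ (A * K) → |b| ≤ (w : ℤ) ^ (A * K) →
    ∀ Z Y : ℕ, w ^ K ≤ Y → ∀ β s t : ℕ → ℕ, (∀ j ≤ l, β j ∈ residues a b k q) → (∀ j < l, s j ≤ t j) →
      |(count a b k w q l β s t Z Y : ℝ) - density a b k w q * Y / (residues a b k q).card ^ (l + 1) *
          ∏ j ∈ range l, (Real.exp (-(density a b k w q * s j)) - Real.exp (-(density a b k w q * t j)))| ≤
        ε * (density a b k w q * Y / (residues a b k q).card ^ (l + 1)) := by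
  classical
  obtain ⟨r0, hr0⟩ := joint k 1 q l hq ((A * (k + 1) + 1 : ℕ) : ℝ) 1 1 ε (by positivity) one_pos one_pos hε
  refine ⟨max r0 2, ?_⟩
  intro K hK
  have hK2 : 2 ≤ K := (le_max_right _ _).trans hK
  obtain ⟨C, hC, hVb⟩ := V_bound K hK2
  have hev := ((hr0 K ((le_max_left _ _).trans hK) C).and hVb).and (eventually_ge_atTop (max k 1))
  have hpow : Tendsto (fun w : ℕ => w ^ K) atTop atTop := tendsto_pow_atTop (by omega)
  obtain ⟨w0, hw0⟩ := eventually_atTop.1 (hpow.eventually hev)
  refine ⟨w0, ?_⟩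
  intro w hw a b hadm ha hb Z Y hY β s t hβ hst
  obtain ⟨⟨h1, h2⟩, h3⟩ := hw0 w hw
  have hfl : ⌊((w ^ K : ℕ) : ℝ) ^ (1 / (K : ℝ))⌋₊ = w := by
    push_cast
    rw [one_div, Real.pow_rpow_inv_natCast (Nat.cast_nonneg w) (by omega), Nat.floor_natCast]
  have h6 : (1 : ℝ) ≤ ((w ^ K : ℕ) : ℝ) := by exact_mod_cast (le_max_right _ _).trans h3
  have h7 : (k : ℝ) ≤ ((w ^ K : ℕ) : ℝ) := by exact_mod_cast (le_max_left _ _).trans h3
  have hht : ∀ x : ℤ, |x| ≤ (w : ℤ) ^ (A * K) → |(x : ℝ)| ≤ ((w ^ K : ℕ) : ℝ) ^ A := by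
    intro x hx
    have h8 : |(x : ℝ)| ≤ (w : ℝ) ^ (A * K) := by exact_mod_cast hx
    refine h8.trans (le_of_eq ?_)
    push_cast
    rw [← pow_mul, mul_comm]
  have hus := sys_us a b k hk hadm (((w ^ K : ℕ) : ℝ) ^ A) (((w ^ K : ℕ) : ℝ) ^ (1 : ℝ)) (one_le_pow₀ h6)
    (hht a ha) (hht b hb)
  have hus' : US k 1 (((w ^ K : ℕ) : ℝ) ^ ((A * (k + 1) + 1 : ℕ) : ℝ)) (((w ^ K : ℕ) : ℝ) ^ (1 : ℝ)) (sys a b k) :=
    { irr := hus.irr
      deg := hus.deg
      degD := hus.degD
      hgt := fun i n => (hus.hgt i n).trans (height k A _ h7 h6)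
      adm := hus.adm
      tr := hus.tr }
  have := h1 (sys a b k) hus' (h2 k hk a b) Z Y (by
      rw [Real.rpow_one]
      exact_mod_cast hY) β s t (by rwa [residues_eq] at hβ) hst (density a b k w q)
      ((residues a b k q).card : ℝ) (by rw [residues_eq]) (by
      rw [hfl, density_eq a b k w q hk hadm.2.1])
  rw [hfl, ← count_eq] at this
  exact this

/-- the order of magnitude of the density -/
lemma order (k : ℕ) (hk : 1 ≤ k) (a b : ℤ) (h : Admissible k a b) (ha : 2 ≤ a) : ∃ v C : ℝ, 0 < v ∧ 0 < C ∧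
    ∀ᶠ w : ℕ in atTop, v / Real.log w ^ k ≤ density a b k w 1 ∧ density a b k w 1 ≤ C / Real.log w ^ k := by
  classical
  have hus := sys_us a b k hk h (max (|(a : ℝ)|) (max (|(b : ℝ)|) 1)) 1
    ((le_max_right _ _).trans (le_max_right _ _)) (le_max_left _ _) ((le_max_left _ _).trans (le_max_right _ _))
  obtain ⟨v, C, hv, hC, hV⟩ := Pool.Agent.R463.PS.V_fixed (sys a b k) hus.irr
    (fun i => Nat.one_le_iff_ne_zero.2 (hus.deg i)) (by
      intro i
      unfold sys
      rw [Polynomial.leadingCoeff_linear (pow_ne_zero _ (by omega))]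
      positivity) (by
      intro i j hij
      have h1 := congrArg (Polynomial.eval 1) hij
      have h0 := congrArg (Polynomial.eval 0) hij
      simp only [sys, Polynomial.eval_mul, Polynomial.eval_add, Polynomial.eval_C, Polynomial.eval_X] at h0 h1
      have h2 : a ^ (i : ℕ) = a ^ (j : ℕ) := by linear_combination h1 - h0
      exact Fin.ext (pow_right_injective₀ (by omega) (by omega) h2)) hus.adm 2 le_rfl
  refine ⟨v / 2 ^ k, C / 2 ^ k, by positivity, by positivity, ?_⟩
  have hpow : Tendsto (fun w : ℕ => w ^ 2) atTop atTop := tendsto_pow_atTop (by omega)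
  filter_upwards [hpow.eventually hV] with w hw
  have hfl : ⌊((w ^ 2 : ℕ) : ℝ) ^ (1 / ((2 : ℕ) : ℝ))⌋₊ = w := by
    push_cast
    rw [one_div]
    have := Real.pow_rpow_inv_natCast (Nat.cast_nonneg w) (two_ne_zero)
    push_cast at this
    rw [this, Nat.floor_natCast]
  have hlog : Real.log ((w ^ 2 : ℕ) : ℝ) = 2 * Real.log w := by
    push_cast
    rw [Real.log_pow]
    norm_num
  rw [Pool.Agent.R463.PS.V_eq, hfl, hlog, mul_pow] at hw
  have hd : density a b k w 1 = Vq (Q (sys a b k)) w := by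
    rw [density_eq a b k w 1 hk h.2.1]
    have h1 : (residues a b k 1).card = 1 := by
      have : residues a b k 1 = {0} := by
        unfold residues
        ext x
        rw [mem_filter, mem_range, mem_singleton]
        constructor
        · rintro ⟨h1, _⟩
          omega
        · rintro rfl
          refine ⟨by norm_num, ?_⟩
          simp
      rw [this, card_singleton]
    have h2 : Qd (Q (sys a b k)) 1 = fun p m => ¬ p ∣ 1 ∧ Q (sys a b k) p m := rfl
    rw [h1, Nat.cast_one, div_one, one_mul]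
    unfold Vq
    apply prod_congr rfl
    intro p hp
    have hp1 : ¬ p ∣ 1 := fun h => (mem_pz.1 hp).2.one_lt.ne' (Nat.dvd_one.1 h)
    have h3 : nuB (Qd (Q (sys a b k)) 1) p = nuB (Q (sys a b k)) p := by
      unfold nuB
      congr 1
      apply filter_congr
      intro m _
      unfold Qd
      tauto
    rw [h3]
  rw [hd, div_div, div_div]
  exact hw

/-- **The joint law of the gaps and the residues of the starts of chains, uniformly in the linear maps.** -/
theorem result :
    -- `a = 2`, `b = 1`: the chains of the first kind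
    (∀ (i : ℕ) (n : ℤ), term 2 1 i n = 2 ^ i * (n + 1) - 1) ∧ (∀ k : ℕ, Admissible k 2 1) ∧
    -- chains of primes `> w` have starts at the level `w`
    (∀ (a b : ℤ) (k w n : ℕ), (∀ i < k, (term a b i n).natAbs.Prime ∧ w < (term a b i n).natAbs) →
      Start a b k w n) ∧
    -- the terms of the chain of a start are almost primes
    (∀ (a b : ℤ) (k w s n i : ℕ), Start a b k w n → i < k → term a b i n ≠ 0 →
      (term a b i n).natAbs ≤ w ^ s → (term a b i n).natAbs.primeFactorsList.length ≤ s) ∧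
    -- the number of the forbidden residues
    (∀ (a b : ℤ) (k p : ℕ), p.Prime → 1 ≤ k → IsCoprime a b →
      ((range p).filter (fun n : ℕ => ∃ i < k, (p : ℤ) ∣ term a b i n)).card = min k (period a b p)) ∧
    -- the order of magnitude of the density
    (∀ k : ℕ, 1 ≤ k → ∀ a b : ℤ, Admissible k a b → 2 ≤ a → ∃ v C : ℝ, 0 < v ∧ 0 < C ∧
      ∀ᶠ w : ℕ in atTop, v / Real.log w ^ k ≤ density a b k w 1 ∧ density a b k w 1 ≤ C / Real.log w ^ k) ∧
    -- the joint law of `l + 1` residues and `l` gaps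
    (∀ k A q l : ℕ, 1 ≤ k → 1 ≤ q → ∀ ε : ℝ, 0 < ε → ∃ K₀ : ℕ, ∀ K : ℕ, K₀ ≤ K →
      ∃ w₀ : ℕ, ∀ w : ℕ, w₀ ≤ w → ∀ a b : ℤ, Admissible k a b →
      |a| ≤ (w : ℤ) ^ (A * K) → |b| ≤ (w : ℤ) ^ (A * K) →
      ∀ Z Y : ℕ, w ^ K ≤ Y → ∀ β s t : ℕ → ℕ, (∀ j ≤ l, β j ∈ residues a b k q) → (∀ j < l, s j ≤ t j) →
        |(count a b k w q l β s t Z Y : ℝ) - density a b k w q * Y / (residues a b k q).card ^ (l + 1) *
            ∏ j ∈ range l, (Real.exp (-(density a b k w q * s j)) - Real.exp (-(density a b k w q * t j)))| ≤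
          ε * (density a b k w q * Y / (residues a b k q).card ^ (l + 1))) := by
  refine ⟨term_first, adm_first, ?_, ?_, ?_, order, law⟩
  · intro a b k w n h i hi p hp hpw hd
    obtain ⟨h1, h2⟩ := h i hi
    have h3 := (Nat.prime_dvd_prime_iff_eq hp h1).1 (Int.natCast_dvd.1 hd)
    omega
  · intro a b k w s n i h hi h0 hs
    exact few w s _ (Int.natAbs_pos.2 h0) hs (fun p hp hpw hd => h i hi p hp hpw (Int.natCast_dvd.2 hd))
  · intro a b k p hp hk hab
    exact roots_eq a b k p hp hk hab

end Pool.Agent.Results.MP_c77da8_nt.GapsAndResiduesOfChains
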