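import Mathlib
import Pool.Agent.U364.ST.Cls
import Pool.Agent.R498.MP.Tup
import Pool.Agent.U364.ST.Adm

/-!
# Strings of consecutive candidates for prime triplets, all of them almost prime triplets, for both shapes

A prime triplet is `(p, p + b, p + 6)` with `b = 2` or `b = 4`. If these numbers are primes and `p > 5`, then `p` is `11` or
`17` modulo `30` for `b = 2`, and `7` or `13` modulo `30` for `b = 4`. The primes of such a class are the candidates. Call a
prime `p` good (parameters `r`, `w`) if `p + b` and `p + 6` have at most `r` prime factors, all of them at least `w = N ^ δ`.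

Let `b` be `2` or `4`, `q` a squarefree multiple of `30` and `c` a class with `c (c + b) (c + 6)` coprime to `q` (for `q = 30`:
the classes above). For every `m` there are `C`, `r` and `δ > 0` such that for every finite set `T` of at least `C` nonnegative
integers and every length `l` the following holds for all large `N`: at least `1 / C` of all the `m`-element subsets `H` of `T`
are such that there is an arithmetic progression of `l` terms `x` in `(N, 2 N]` with difference at most `(log N) ^ B` such that
for every term `x` the primes of the class `c` modulo `q` in `[x, x + q max H]` are exactly the numbers `x + q h`, `h ∈ H`, and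
all these primes are good. So in every interval `(N, 2 N]` there are `m` CONSECUTIVE candidates which are all good, in a
positive proportion of all the patterns.

Proof: the theorem on primes with almost prime companions (starting files, `Pool.Agent.R498.MP.stringsC`), for shifts which are
multiples of `q`, and the passage to a positive proportion of the patterns (starting files, `Pool.Agent.Helper32K9.Str`).
-/

set_option autoImplicit false

namespace Pool.Agent.Results.MP_dddec0_nt.ConsecutiveCandidates

open Filter Polynomial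

/-- `n` has at most `r` prime factors, counted with multiplicity, all of them at least `w`. -/
def AlmostPrime (r : ℕ) (w : ℝ) (n : ℕ) : Prop :=
  n.primeFactorsList.length ≤ r ∧ ∀ q : ℕ, q.Prime → q ∣ n → w ≤ q

/-- `p + b` and `p + 6` are almost primes. -/
def Good (b r : ℕ) (w : ℝ) (p : ℕ) : Prop := AlmostPrime r w (p + b) ∧ AlmostPrime r w (p + 6)

/-- There is an arithmetic progression of `l` terms `x`, with difference between `1` and `(log N) ^ B`, such that for all its
terms `x`: `N < x`, `x + q max H ≤ 2 N`, the primes among the numbers `x + q y`, `y ≤ max H` (all the numbers `≡ c` modulo `q`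
of the interval `[x, x + q max H]`) are exactly those with `y ∈ H`, and they are all good with the parameters `r`, `N ^ δ`. -/
def Occurs (b q c r : ℕ) (δ : ℝ) (l B N : ℕ) (H : Finset ℕ) : Prop :=
  ∃ n d : ℕ, 1 ≤ d ∧ (d : ℝ) ≤ Real.log N ^ B ∧ ∀ j < l, N < n + j * d ∧ n + j * d + q * H.sup id ≤ 2 * N ∧
    (∀ y ≤ H.sup id, (n + j * d + q * y).Prime ↔ y ∈ H) ∧
    ∀ s ∈ H, n + j * d + q * s ≡ c [MOD q] ∧ Good b r ((N : ℝ) ^ δ) (n + j * d + q * s)

/-- the product of the forms -/
noncomputable def F (b : ℕ) : ℤ[X] := (X + C (b : ℤ)) * (X + 6)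

theorem F_eval (b : ℕ) (n : ℤ) : (F b).eval n = (n + b) * (n + 6) := by
  unfold F
  simp

/-- **A positive proportion of the patterns of `m` consecutive candidates for prime triplets consists of candidates which are
all almost prime triplets; both shapes.** -/
theorem result :
    (∀ b : ℕ, b = 2 ∨ b = 4 → ∀ q c : ℕ, Squarefree q → 30 ∣ q → Nat.Coprime (c * ((c + b) * (c + 6))) q →
      ∀ m : ℕ, 1 ≤ m → ∃ (C r : ℕ) (δ : ℝ), 0 < C ∧ 0 < δ ∧ ∀ T : Finset ℕ, C ≤ T.card → ∀ l : ℕ, ∃ B : ℕ,
        ∀ᶠ N : ℕ in atTop,
          T.card.choose m ≤ C * {H : Finset ℕ | H ⊆ T ∧ H.card = m ∧ Occurs b q c r δ l B N H}.ncard) ∧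
    Squarefree 30 ∧ (∀ c : ℕ, c = 11 ∨ c = 17 → Nat.Coprime (c * ((c + 2) * (c + 6))) 30) ∧
    (∀ c : ℕ, c = 7 ∨ c = 13 → Nat.Coprime (c * ((c + 4) * (c + 6))) 30) ∧
    (∀ n : ℕ, 5 < n → n.Prime → (n + 2).Prime → (n + 6).Prime → n % 30 = 11 ∨ n % 30 = 17) ∧
    (∀ n : ℕ, 5 < n → n.Prime → (n + 4).Prime → (n + 6).Prime → n % 30 = 7 ∨ n % 30 = 13) := by
  have key : ∀ p : ℕ, p.Prime → ∀ m : ℕ, m.Prime → 5 < m → p ≤ 5 → m % p ≠ 0 := by
    intro p hp m hm hm5 hp5 h
    have h1 := (Nat.prime_dvd_prime_iff_eq hp hm).1 (Nat.dvd_of_mod_eq_zero h)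
    omega
  refine ⟨fun b hb q c hq h30 hc m hm => ?_, ?_, ?_, ?_, ?_, ?_⟩
  · refine Pool.Agent.U364.ST.cls_prop (F b) ?_ ?_ q c hq ?_ ?_ m hm (Good b) 0 ?_
    · intro h
      have h1 := F_eval b 0
      rw [h] at h1
      rcases hb with rfl | rfl <;> norm_num at h1
    · intro p hp
      rcases hb with rfl | rfl
      · obtain ⟨n, hn⟩ := Pool.Agent.U364.ST.adm_two (fun n => n * (F 2).eval n) 11 (-1) (by
          rw [F_eval, F_eval, Int.isCoprime_iff_gcd_eq_one]
          norm_num) p hp
        exact ⟨n, hn⟩
      · obtain ⟨n, hn⟩ := Pool.Agent.U364.ST.adm_two (fun n => n * (F 4).eval n) 13 1 (by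
          rw [F_eval, F_eval, Int.isCoprime_iff_gcd_eq_one]
          norm_num) p hp
        exact ⟨n, hn⟩
    · intro p hp hpq hd
      rw [F_eval] at hd
      have h1 : p ∣ c * ((c + b) * (c + 6)) := by exact_mod_cast hd
      have h2 := Nat.dvd_gcd h1 hpq
      rw [hc] at h2
      exact hp.one_lt.ne' (Nat.dvd_one.1 h2)
    · intro z hz0 hqz h0
      rw [F_eval] at h0
      have h1 : (30 : ℤ) ∣ z := by
        refine dvd_trans ?_ hqz
        exact_mod_cast h30
      rcases mul_eq_zero.1 h0 with h2 | h2
      · rcases hb with rfl | rfl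
        · push_cast at h2
          omega
        · push_cast at h2
          omega
      · omega
    · intro r w p hp _ _ hAP
      rw [F_eval] at hAP
      have e : ((p : ℤ) + b) * ((p : ℤ) + 6) = (((p + b) * (p + 6) : ℕ) : ℤ) := by
        push_cast
        ring
      rw [e] at hAP
      refine ⟨Pool.Agent.R498.MP.AP_nat _ _ _ (Pool.Agent.R498.MP.AP_dvd r w _ _ hAP ?_),
        Pool.Agent.R498.MP.AP_nat _ _ _ (Pool.Agent.R498.MP.AP_dvd r w _ _ hAP ?_)⟩
      · exact Int.natCast_dvd_natCast.2 (Dvd.intro _ rfl)
      · exact Int.natCast_dvd_natCast.2 (Dvd.intro_left _ rfl)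
  · have h2 : Squarefree 2 := Nat.prime_two.prime.squarefree
    have h3 : Squarefree 3 := Nat.prime_three.prime.squarefree
    have h5 : Squarefree 5 := (by norm_num : Nat.Prime 5).prime.squarefree
    have h6 : Squarefree (2 * 3) := (Nat.squarefree_mul (by norm_num)).2 ⟨h2, h3⟩
    have h30 : Squarefree (2 * 3 * 5) := (Nat.squarefree_mul (by norm_num)).2 ⟨h6, h5⟩
    exact h30
  · rintro c (rfl | rfl) <;> norm_num
  · rintro c (rfl | rfl) <;> norm_num
  · intro n hn h0 h2 h6
    have a2 := key 2 Nat.prime_two n h0 hn (by norm_num)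
    have a3 := key 3 Nat.prime_three n h0 hn (by norm_num)
    have a5 := key 5 (by norm_num) n h0 hn (by norm_num)
    have b3 := key 3 Nat.prime_three (n + 2) h2 (by omega) (by norm_num)
    have b5 := key 5 (by norm_num) (n + 2) h2 (by omega) (by norm_num)
    have c5 := key 5 (by norm_num) (n + 6) h6 (by omega) (by norm_num)
    have e5 : n % 5 = 1 ∨ n % 5 = 2 := by
      clear a2 a3 b3
      have h1 := Nat.add_mod n 2 5
      have h2 := Nat.add_mod n 6 5
      have h3 := Nat.mod_lt n (show 0 < 5 by norm_num)
      generalize n % 5 = t at *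
      interval_cases t <;> simp_all
    have e3 : n % 3 = 2 := by
      clear a2 a5 b5 c5 e5
      omega
    have e2 : n % 2 = 1 := by
      clear a3 a5 b3 b5 c5 e5 e3
      omega
    clear a2 a3 a5 b3 b5 c5
    rcases e5 with e5 | e5
    · left
      omega
    · right
      omega
  · intro n hn h0 h2 h6
    have a2 := key 2 Nat.prime_two n h0 hn (by norm_num)
    have a3 := key 3 Nat.prime_three n h0 hn (by norm_num)
    have a5 := key 5 (by norm_num) n h0 hn (by norm_num)
    have b3 := key 3 Nat.prime_three (n + 4) h2 (by omega) (by norm_num)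
    have b5 := key 5 (by norm_num) (n + 4) h2 (by omega) (by norm_num)
    have c5 := key 5 (by norm_num) (n + 6) h6 (by omega) (by norm_num)
    have e5 : n % 5 = 2 ∨ n % 5 = 3 := by
      clear a2 a3 b3
      have h1 := Nat.add_mod n 4 5
      have h2 := Nat.add_mod n 6 5
      have h3 := Nat.mod_lt n (show 0 < 5 by norm_num)
      generalize n % 5 = t at *
      interval_cases t <;> simp_all
    have e3 : n % 3 = 1 := by
      clear a2 a5 b5 c5 e5
      omega
    have e2 : n % 2 = 1 := by
      clear a3 a5 b3 b5 c5 e5 e3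
      omega
    clear a2 a3 a5 b3 b5 c5
    rcases e5 with e5 | e5
    · left
      omega
    · right
      omega

end Pool.Agent.Results.MP_dddec0_nt.ConsecutiveCandidates
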