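import Mathlib
import Pool.Agent.U464.PD.Tup

/-!
# All admissible tuples of shifts up to any power of `x`, uniformly, at integers with restricted digits

Let `x = b ^ K`. The integers `n` have prescribed leading digits in base `b` (`n` lies in the window `[x t, x (t + 1))`,
where `t` may be as large as any power of `x`, so that the window may be as short as any power of `n`) and restricted
`K` last digits: the `i`-th digit belongs to `A i`, where the sets `A i` are arbitrary, only the product of the `|A i|`
is at least `exp (- δ K) x`. For ALL admissible sets `H` of `k` shifts `h ≤ x ^ D`, uniformly in `H`, in `t` and in the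
sets `A i`, with `S` the singular series of `H` of Hardy and Littlewood cut at `x`:

* the number of these `n` for which no `n + h` has a prime factor up to `x ^ (1 / r)` is at most a constant times
  `(∏ |A i|) S / K ^ k`; this includes all the `n` for which all `n + h` are primes larger than `x ^ (1 / r)`;
* if there is no local obstruction at the primes dividing `b`, then at least a constant times as many of these `n` are
  such that moreover the product of the `n + h` has at most `r` prime factors.

Proof: `Pool/Agent/U464/PD/Tup.lean`, from the sieve for integers with restricted digits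
`Pool.Agent.Y816.PD.uni_fun` of the starting library.
-/

set_option autoImplicit false

namespace Pool.Agent.Results.MP_e87c7d_nt.RestrictedDigitTuples

open Finset Filter

/-- The number of the residue classes modulo `p` occupied by `H`. -/
def nu (H : Finset ℕ) (p : ℕ) : ℕ := (H.image (fun h => h % p)).card

/-- The singular series of Hardy and Littlewood cut at `x`: the product over the primes `p ≤ x` of
`(1 - ν_p / p) (1 - 1 / p) ^ (- k)`, `k = |H|`. -/
noncomputable def sing (H : Finset ℕ) (x : ℕ) : ℝ :=
  ∏ p ∈ (Icc 1 x).filter Nat.Prime, ((1 - (nu H p : ℝ) / p) * ((1 - 1 / (p : ℝ)) ^ H.card)⁻¹)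

/-- The `n` in `[b ^ K t, b ^ K (t + 1))` whose `i`-th digit in base `b` (the digit of the units for `i = 0`) belongs
to `A i` for all `i < K`, such that all prime factors of the `n + h`, `h ∈ H`, are larger than `b ^ (K / r)`. -/
def Rough (H : Finset ℕ) (b K t r : ℕ) (A : ℕ → Finset ℕ) : Set ℕ :=
  {n | b ^ K * t ≤ n ∧ n < b ^ K * (t + 1) ∧ (∀ i < K, n / b ^ i % b ∈ A i) ∧
    ∀ h ∈ H, ∀ q : ℕ, q.Prime → q ∣ n + h → b ^ K < q ^ r}

/-- The elements `n` of `Rough` for which the product of the `n + h`, `h ∈ H`, has at most `r` prime factors, counted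
with multiplicity. -/
def AlmostPrime (H : Finset ℕ) (b K t r : ℕ) (A : ℕ → Finset ℕ) : Set ℕ :=
  {n | n ∈ Rough H b K t r A ∧ (∏ h ∈ H, (n + h)).primeFactorsList.length ≤ r}

/-- **All admissible tuples of shifts at integers with restricted digits.** -/
theorem result (k D : ℕ) (hk : 1 ≤ k) :
    ∃ δ : ℝ, 0 < δ ∧ ∃ r₀ : ℕ, 2 ≤ r₀ ∧ ∀ r : ℕ, r₀ ≤ r → ∀ b : ℕ, 2 ≤ b → ∃ κ C : ℝ, 0 < κ ∧ 0 < C ∧
      ∀ᶠ K : ℕ in atTop, ∀ H : Finset ℕ, H.card = k → (∀ h ∈ H, h ≤ b ^ (D * K)) →
        (∀ p : ℕ, p.Prime → nu H p < p) → ∀ t : ℕ, t ≤ b ^ (D * K) →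
        ∀ A : ℕ → Finset ℕ, (∀ i < K, A i ⊆ range b) →
          (b : ℝ) ^ K ≤ Real.exp (δ * K) * ∏ i ∈ range K, ((A i).card : ℝ) →
          ((∃ d ∈ A 0, ∀ h ∈ H, (d + h).Coprime b) →
            κ * (∏ i ∈ range K, ((A i).card : ℝ)) * (sing H (b ^ K) / (K : ℝ) ^ k) ≤
              ((AlmostPrime H b K t r A).ncard : ℝ)) ∧
          ((Rough H b K t r A).ncard : ℝ) ≤
            C * (∏ i ∈ range K, ((A i).card : ℝ)) * (sing H (b ^ K) / (K : ℝ) ^ k) :=
  Pool.Agent.U464.PD.tup k D hk

end Pool.Agent.Results.MP_e87c7d_nt.RestrictedDigitTuples
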